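import Pool.Agent.W714.Coin.Tube

set_option autoImplicit false
set_option linter.unusedSectionVars false
set_option linter.unusedTactic false

/-!
# Leafwise dynamics: a foliation by invariant curves contains a curve of fixed points
-/

namespace Pool.Agent.W714.Coin

open Set Topology Filter

section OneDim

/-- forward motion of a lifted circle map -/
lemma forward_iter (g x : ℝ → ℝ) (hg : Continuous g) (hg1 : ∀ u, g (u + 1) = g u + 1)
    (hx : Continuous x) (L : ℝ) (hL : 0 < L) (hx1 : ∀ u, x (u + 1) = x u + L)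
    (h : ∀ u, u < g u) : ∃ N₀ : ℕ, ∀ N ≥ N₀, ∀ u, x u < x (g^[N] u) := by
  -- minimal displacement
  obtain ⟨δ, hδ, hδ'⟩ : ∃ δ > 0, ∀ u, u + δ ≤ g u := by
    obtain ⟨u₀, -, hm⟩ := isCompact_Icc.exists_isMinOn (s := Icc (0:ℝ) 1) (by simp)
      (show ContinuousOn (fun u => g u - u) (Icc 0 1) by fun_prop)
    refine ⟨g u₀ - u₀, by linarith [h u₀], fun u => ?_⟩
    have hp : Function.Periodic (fun u => g u - u) 1 := by
      intro u; simp only [hg1]; ring
    obtain ⟨x', hx', he⟩ := hp.exists_mem_Ico₀ one_pos u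
    have := hm ⟨hx'.1, hx'.2.le⟩
    simp only [mem_ofPred_eq] at this
    rw [← he] at this
    linarith
  obtain ⟨B, hB⟩ : ∃ B, ∀ u, |x u - L * u| ≤ B := by
    obtain ⟨B, hB⟩ := isCompact_Icc.exists_bound_of_continuousOn
      (show ContinuousOn (fun u => x u - L * u) (Icc (0:ℝ) 1) by fun_prop)
    refine ⟨B, fun u => ?_⟩
    have hp : Function.Periodic (fun u => x u - L * u) 1 := by
      intro u; simp only [hx1]; ring
    obtain ⟨x', hx', he⟩ := hp.exists_mem_Ico₀ one_pos u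
    have := hB x' ⟨hx'.1, hx'.2.le⟩
    rw [he]
    exact this
  have hiter : ∀ (n : ℕ) u, u + n * δ ≤ g^[n] u := by
    intro n
    induction n with
    | zero => intro u; simp
    | succ n ih =>
      intro u
      rw [Function.iterate_succ_apply']
      have h1 := hδ' (g^[n] u)
      have h2 := ih u
      push_cast
      linarith
  obtain ⟨N₀, hN₀⟩ := exists_nat_gt (2 * B / (L * δ))
  refine ⟨N₀, fun N hN u => ?_⟩
  have hLδ : 0 < L * δ := mul_pos hL hδ
  rw [div_lt_iff₀ hLδ] at hN₀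
  have h1 := hiter N u
  have h2 := abs_le.mp (hB u)
  have h3 := abs_le.mp (hB (g^[N] u))
  have h4 : L * (u + N * δ) ≤ L * g^[N] u := mul_le_mul_of_nonneg_left h1 hL.le
  have h5 : (N₀ : ℝ) * (L * δ) ≤ N * (L * δ) := by
    apply mul_le_mul_of_nonneg_right _ hLδ.le
    exact_mod_cast hN
  nlinarith

/-- backward motion of a lifted circle map -/
lemma backward_iter (g x : ℝ → ℝ) (hg : Continuous g) (hg1 : ∀ u, g (u + 1) = g u + 1)
    (hx : Continuous x) (L : ℝ) (hL : 0 < L) (hx1 : ∀ u, x (u + 1) = x u + L)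
    (h : ∀ u, g u < u) : ∃ N₀ : ℕ, ∀ N ≥ N₀, ∀ u, x (g^[N] u) < x u := by
  obtain ⟨N₀, hN₀⟩ := forward_iter (fun u => -g (-u)) (fun u => -x (-u)) (by fun_prop)
    (by
      intro u
      have := hg1 (-(u + 1))
      have e : -(u + 1) + 1 = -u := by ring
      rw [e] at this
      linarith) (by fun_prop) L hL
    (by
      intro u
      have := hx1 (-(u + 1))
      have e : -(u + 1) + 1 = -u := by ring
      rw [e] at this
      linarith)
    (by intro u; have := h (-u); linarith)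
  refine ⟨N₀, fun N hN u => ?_⟩
  have h1 := hN₀ N hN (-u)
  have h2 : ∀ (n : ℕ) (v : ℝ), (fun u => -g (-u))^[n] v = -g^[n] (-v) := by
    intro n
    induction n with
    | zero => intro v; simp
    | succ n ih =>
      intro v
      rw [Function.iterate_succ_apply', Function.iterate_succ_apply', ih]
      simp
  rw [h2] at h1
  simp only [neg_neg] at h1
  linarith

/-- trichotomy -/
lemma trichotomy_of_cont (g : ℝ → ℝ) (hg : Continuous g) :
    (∃ u, g u = u) ∨ (∀ u, u < g u) ∨ (∀ u, g u < u) := by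
  by_contra hcon
  push Not at hcon
  obtain ⟨h1, ⟨u, hu⟩, ⟨v, hv⟩⟩ := hcon
  have hu' : g u - u ≤ 0 := by linarith
  have hv' : 0 ≤ g v - v := by linarith
  have := mem_range_of_exists_le_of_exists_ge (f := fun u => g u - u) (by fun_prop) ⟨u, hu'⟩ ⟨v, hv'⟩
  obtain ⟨w, hw⟩ := this
  exact h1 w (by simp only at hw; linarith)

end OneDim

section Leaf

variable {L : ℝ} {Y : Type*} [TopologicalSpace Y] [ContractibleSpace Y]
  {T : AddCircle L × Y → AddCircle L × Y} {D : AddCircle L × Y → ℝ} {K : ℤ}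
  {φ : AddCircle (1 : ℝ) × ℝ → AddCircle L × Y} {X G : ℝ × ℝ → ℝ}

/-- the sum of the displacements, relative to `K` periods, along an orbit -/
noncomputable def DN (L : ℝ) (T : AddCircle L × Y → AddCircle L × Y) (D : AddCircle L × Y → ℝ)
    (K : ℤ) (n : ℕ) (z : AddCircle L × Y) : ℝ :=
  ∑ i ∈ Finset.range n, (D (T^[i] z) - K * L)

lemma IsTube.iter (h : IsTube T D K φ X G) (t : ℝ) (n : ℕ) (u : ℝ) :
    φ ((((fun v => G (v, t))^[n] u : ℝ) : AddCircle (1:ℝ)), t)
      = T^[n] (φ ((u : AddCircle (1:ℝ)), t)) := by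
  induction n with
  | zero => rfl
  | succ n ih =>
    rw [Function.iterate_succ_apply', Function.iterate_succ_apply', ← ih]
    exact h.semi _ _

lemma IsTube.X_iter (h : IsTube T D K φ X G) (t : ℝ) (n : ℕ) (u : ℝ) :
    X ((fun v => G (v, t))^[n] u, t)
      = X (u, t) + DN L T D K n (φ ((u : AddCircle (1:ℝ)), t)) := by
  induction n with
  | zero => simp [DN]
  | succ n ih =>
    rw [Function.iterate_succ_apply']
    change X (G ((fun v => G (v, t))^[n] u, t), t) = _
    rw [h.XG, ih, h.iter, DN, DN, Finset.sum_range_succ]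
    ring

lemma IsTube.contGt (h : IsTube T D K φ X G) (t : ℝ) : Continuous fun u => G (u, t) := by
  have := h.contG
  fun_prop

lemma IsTube.contXt (h : IsTube T D K φ X G) (t : ℝ) : Continuous fun u => X (u, t) := by
  have := h.contX
  fun_prop

lemma IsTube.fixed (h : IsTube T D K φ X G) {u t : ℝ} (hu : G (u, t) = u) :
    T (φ ((u : AddCircle (1:ℝ)), t)) = φ ((u : AddCircle (1:ℝ)), t) ∧
      D (φ ((u : AddCircle (1:ℝ)), t)) = K * L := by
  constructor
  · rw [← h.semi, hu]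
  · have := h.XG u t
    rw [hu] at this
    linarith

/-- positive leaves -/
def Pos (L : ℝ) (T : AddCircle L × Y → AddCircle L × Y) (D : AddCircle L × Y → ℝ)
    (K : ℤ) (Γ : Set (AddCircle L × Y)) : Prop := ∃ N, ∀ z ∈ Γ, 0 < DN L T D K N z

/-- negative leaves -/
def Neg (L : ℝ) (T : AddCircle L × Y → AddCircle L × Y) (D : AddCircle L × Y → ℝ)
    (K : ℤ) (Γ : Set (AddCircle L × Y)) : Prop := ∃ N, ∀ z ∈ Γ, DN L T D K N z < 0

lemma coe_surj (u : AddCircle (1:ℝ)) : ∃ x : ℝ, (x : AddCircle (1:ℝ)) = u :=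
  QuotientAddGroup.mk_surjective u

lemma IsTube.pos_iff (h : IsTube T D K φ X G) (hL : 0 < L) (t : ℝ) :
    Pos L T D K (range fun u => φ (u, t)) ↔ ∀ u, u < G (u, t) := by
  constructor
  · rintro ⟨N₁, hN₁⟩
    have hx : ∀ u, X (u, t) < X ((fun v => G (v, t))^[N₁] u, t) := by
      intro u
      rw [h.X_iter]
      linarith [hN₁ (φ ((u : AddCircle (1:ℝ)), t)) ⟨_, rfl⟩]
    rcases trichotomy_of_cont _ (h.contGt t) with ⟨u, hu⟩ | h1 | h1
    · exfalso
      have := hx u
      rw [Function.iterate_fixed hu] at this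
      exact lt_irrefl _ this
    · exact h1
    · exfalso
      obtain ⟨N₀, hN₀⟩ := backward_iter _ _ (h.contGt t) (fun u => h.perG u t) (h.contXt t) L hL
        (fun u => h.perX u t) h1
      have hpos : N₁ ≠ 0 := by
        rintro rfl
        exact lt_irrefl _ (hx 0)
      have hk : ∀ k : ℕ, ∀ u, X (u, t) ≤ X ((fun v => G (v, t))^[k * N₁] u, t) := by
        intro k
        induction k with
        | zero => intro u; simp
        | succ k ih =>
          intro u
          rw [Nat.succ_mul, Nat.add_comm, Function.iterate_add_apply]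
          exact (ih u).trans (hx _).le
      have h2 := hN₀ (N₀ * N₁) (Nat.le_mul_of_pos_right _ (Nat.pos_of_ne_zero hpos)) 0
      have h3 := hk N₀ 0
      linarith
  · intro h1
    obtain ⟨N₀, hN₀⟩ := forward_iter _ _ (h.contGt t) (fun u => h.perG u t) (h.contXt t) L hL
      (fun u => h.perX u t) h1
    refine ⟨N₀, ?_⟩
    rintro z ⟨u, rfl⟩
    obtain ⟨x, rfl⟩ := coe_surj u
    have := hN₀ N₀ le_rfl x
    rw [h.X_iter] at this
    linarith

lemma IsTube.neg_iff (h : IsTube T D K φ X G) (hL : 0 < L) (t : ℝ) :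
    Neg L T D K (range fun u => φ (u, t)) ↔ ∀ u, G (u, t) < u := by
  constructor
  · rintro ⟨N₁, hN₁⟩
    have hx : ∀ u, X ((fun v => G (v, t))^[N₁] u, t) < X (u, t) := by
      intro u
      rw [h.X_iter]
      linarith [hN₁ (φ ((u : AddCircle (1:ℝ)), t)) ⟨_, rfl⟩]
    rcases trichotomy_of_cont _ (h.contGt t) with ⟨u, hu⟩ | h1 | h1
    · exfalso
      have := hx u
      rw [Function.iterate_fixed hu] at this
      exact lt_irrefl _ this
    · exfalso
      obtain ⟨N₀, hN₀⟩ := forward_iter _ _ (h.contGt t) (fun u => h.perG u t) (h.contXt t) L hL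
        (fun u => h.perX u t) h1
      have hpos : N₁ ≠ 0 := by
        rintro rfl
        exact lt_irrefl _ (hx 0)
      have hk : ∀ k : ℕ, ∀ u, X ((fun v => G (v, t))^[k * N₁] u, t) ≤ X (u, t) := by
        intro k
        induction k with
        | zero => intro u; simp
        | succ k ih =>
          intro u
          rw [Nat.succ_mul, Nat.add_comm, Function.iterate_add_apply]
          exact (hx _).le.trans (ih u)
      have h2 := hN₀ (N₀ * N₁) (Nat.le_mul_of_pos_right _ (Nat.pos_of_ne_zero hpos)) 0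
      have h3 := hk N₀ 0
      linarith
    · exact h1
  · intro h1
    obtain ⟨N₀, hN₀⟩ := backward_iter _ _ (h.contGt t) (fun u => h.perG u t) (h.contXt t) L hL
      (fun u => h.perX u t) h1
    refine ⟨N₀, ?_⟩
    rintro z ⟨u, rfl⟩
    obtain ⟨x, rfl⟩ := coe_surj u
    have := hN₀ N₀ le_rfl x
    rw [h.X_iter] at this
    linarith

/-- the set of levels on which all points move forward is open -/
lemma IsTube.forward_open (h : IsTube T D K φ X G) {t₀ : ℝ} (h0 : ∀ u, u < G (u, t₀)) :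
    ∀ᶠ t in 𝓝 t₀, ∀ u, u < G (u, t) := by
  have h1 : ∀ᶠ t in 𝓝 t₀, ∀ u ∈ Icc (0:ℝ) 1, u < G (u, t) := by
    apply isCompact_Icc.eventually_forall_of_forall_eventually
    intro u _
    have hc : Continuous fun p : ℝ × ℝ => G (p.2, p.1) - p.2 := by
      have := h.contG
      fun_prop
    have : ∀ᶠ p : ℝ × ℝ in 𝓝 (t₀, u), 0 < G (p.2, p.1) - p.2 :=
      hc.continuousAt.eventually (lt_mem_nhds (by simp only; linarith [h0 u]))
    filter_upwards [this] with p hp
    linarith
  filter_upwards [h1] with t ht u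
  have hp : Function.Periodic (fun u => G (u, t) - u) 1 := by
    intro u; simp only [h.perG]; ring
  obtain ⟨x', hx', he⟩ := hp.exists_mem_Ico₀ one_pos u
  have := ht x' ⟨hx'.1, hx'.2.le⟩
  linarith

lemma IsTube.backward_open (h : IsTube T D K φ X G) {t₀ : ℝ} (h0 : ∀ u, G (u, t₀) < u) :
    ∀ᶠ t in 𝓝 t₀, ∀ u, G (u, t) < u := by
  have h1 : ∀ᶠ t in 𝓝 t₀, ∀ u ∈ Icc (0:ℝ) 1, G (u, t) < u := by
    apply isCompact_Icc.eventually_forall_of_forall_eventually
    intro u _
    have hc : Continuous fun p : ℝ × ℝ => G (p.2, p.1) - p.2 := by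
      have := h.contG
      fun_prop
    have : ∀ᶠ p : ℝ × ℝ in 𝓝 (t₀, u), G (p.2, p.1) - p.2 < 0 :=
      hc.continuousAt.eventually (gt_mem_nhds (by simp only; linarith [h0 u]))
    filter_upwards [this] with p hp
    linarith
  filter_upwards [h1] with t ht u
  have hp : Function.Periodic (fun u => G (u, t) - u) 1 := by
    intro u; simp only [h.perG]; ring
  obtain ⟨x', hx', he⟩ := hp.exists_mem_Ico₀ one_pos u
  have := ht x' ⟨hx'.1, hx'.2.le⟩
  linarith

lemma iter_ge_of_lt {g : ℝ → ℝ} (hg : StrictMono g) {u : ℝ} (h : u < g u) {n : ℕ} (hn : n ≠ 0) :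
    g u ≤ g^[n] u := by
  obtain ⟨m, rfl⟩ := Nat.exists_eq_succ_of_ne_zero hn
  induction m with
  | zero => simp
  | succ m ih =>
    have h1 := ih (by omega)
    rw [Function.iterate_succ_apply']
    have : u ≤ g^[m.succ] u := h.le.trans h1
    exact hg.monotone this

lemma iter_le_of_lt {g : ℝ → ℝ} (hg : StrictMono g) {u : ℝ} (h : g u < u) {n : ℕ} (hn : n ≠ 0) :
    g^[n] u ≤ g u := by
  obtain ⟨m, rfl⟩ := Nat.exists_eq_succ_of_ne_zero hn
  induction m with
  | zero => simp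
  | succ m ih =>
    have h1 := ih (by omega)
    rw [Function.iterate_succ_apply']
    have : g^[m.succ] u ≤ u := h1.trans h.le
    exact hg.monotone this

/-- **Recurrence.**  If the fixed leaves... all the leaves near the leaf `0` contain fixed points,
and if `T` has no wandering open sets, then all points of these leaves are fixed. -/
lemma IsTube.fixed_of_recurrent (h : IsTube T D K φ X G)
    (hcons : ∀ V : Set (AddCircle L × Y), IsOpen V → V.Nonempty → ∃ z ∈ V, ∃ n, n ≠ 0 ∧ T^[n] z ∈ V)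
    {a b : ℝ} (hfix : ∀ t ∈ Ioo a b, ∃ w, G (w, t) = w) {t₀ : ℝ} (ht₀ : t₀ ∈ Ioo a b) (u₀ : ℝ) :
    G (u₀, t₀) = u₀ := by
  by_contra hne
  -- general consequence of recurrence
  have hbox : ∀ η > 0, (∀ t, |t - t₀| < η → t ∈ Ioo a b) →
      ∃ u t, |u - u₀| < η ∧ |t - t₀| < η ∧ ∃ n : ℕ, n ≠ 0 ∧ ∃ m : ℤ,
        |(fun v => G (v, t))^[n] u + m - u₀| < η := by
    intro η hη _
    set V : Set (AddCircle L × Y) :=
      φ '' ((((↑) : ℝ → AddCircle (1:ℝ)) '' (Metric.ball u₀ η)) ×ˢ Metric.ball t₀ η) with hV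
    have hVo : IsOpen V := by
      apply h.emb.isOpenMap
      apply IsOpen.prod _ Metric.isOpen_ball
      exact (QuotientAddGroup.isOpenMap_coe) _ Metric.isOpen_ball
    have hVn : V.Nonempty :=
      ⟨_, ⟨((u₀ : AddCircle (1:ℝ)), t₀), ⟨⟨u₀, Metric.mem_ball_self hη, rfl⟩,
        Metric.mem_ball_self hη⟩, rfl⟩⟩
    obtain ⟨z, ⟨⟨-, t⟩, ⟨⟨u, hu, rfl⟩, ht⟩, rfl⟩, n, hn, ⟨⟨-, t'⟩, ⟨⟨u', hu', rfl⟩, ht'⟩, he⟩⟩ :=
      hcons V hVo hVn
    refine ⟨u, t, by simpa [Real.dist_eq] using hu, by simpa [Real.dist_eq] using ht, n, hn, ?_⟩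
    simp only at he ht ht'
    rw [← h.iter] at he
    have h1 := h.emb.injective he
    have h2 := congrArg Prod.fst h1
    simp only at h2
    rw [eq_comm, coe_eq_iff] at h2
    obtain ⟨m, hm⟩ := h2
    refine ⟨m, ?_⟩
    rw [mul_one] at hm
    rw [← hm]
    simpa [Real.dist_eq] using hu'
  obtain ⟨η₀, hη₀, hη₀'⟩ : ∃ η₀ > 0, ∀ t, |t - t₀| < η₀ → t ∈ Ioo a b := by
    have : Ioo a b ∈ 𝓝 t₀ := isOpen_Ioo.mem_nhds ht₀
    rw [Metric.mem_nhds_iff] at this
    obtain ⟨ε, hε, hε'⟩ := this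
    exact ⟨ε, hε, fun t ht => hε' (by simpa [Real.dist_eq] using ht)⟩
  -- closeness of `G`
  obtain ⟨η₁, hη₁, hη₁'⟩ : ∃ η₁ > 0, ∀ u t, |u - u₀| < η₁ → |t - t₀| < η₁ →
      |G (u, t) - G (u₀, t₀)| < |G (u₀, t₀) - u₀| / 2 := by
    have hpos : 0 < |G (u₀, t₀) - u₀| / 2 := by
      have : 0 < |G (u₀, t₀) - u₀| := abs_pos.mpr (sub_ne_zero.mpr hne)
      linarith
    obtain ⟨η₁, hη₁, h1⟩ := Metric.continuousAt_iff.mp (h.contG.continuousAt (x := (u₀, t₀))) _ hpos
    refine ⟨η₁, hη₁, fun u t hu ht => ?_⟩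
    have := h1 (x := (u, t)) (by
      rw [Prod.dist_eq, max_lt_iff]
      exact ⟨by simpa [Real.dist_eq] using hu, by simpa [Real.dist_eq] using ht⟩)
    simpa [Real.dist_eq] using this
  set η := min (min η₀ η₁) (|G (u₀, t₀) - u₀| / 2) with hη
  have hpos : 0 < |G (u₀, t₀) - u₀| := abs_pos.mpr (sub_ne_zero.mpr hne)
  have hηpos : 0 < η := lt_min (lt_min hη₀ hη₁) (by linarith)
  have hle0 : η ≤ η₀ := (min_le_left _ _).trans (min_le_left _ _)
  have hle1 : η ≤ η₁ := (min_le_left _ _).trans (min_le_right _ _)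
  have hle2 : η ≤ |G (u₀, t₀) - u₀| / 2 := min_le_right _ _
  obtain ⟨u, t, hu, ht, n, hn, m, hm⟩ := hbox η hηpos
    (fun t ht => hη₀' t (lt_of_lt_of_le ht hle0))
  set g : ℝ → ℝ := fun v => G (v, t) with hg
  have hgm : StrictMono g := h.mono t
  have hgint : ∀ (k : ℤ) v, g (v + k) = g v + k := by
    intro k v
    have := add_int_of_add_one g 1 (fun x => h.perG x t) k v
    simpa using this
  obtain ⟨w₀, hw₀⟩ := hfix t (hη₀' t (lt_of_lt_of_le ht hle0))
  have hwk : ∀ k : ℤ, g (w₀ + k) = w₀ + k := by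
    intro k
    rw [hgint]
    have : g w₀ = w₀ := hw₀
    rw [this]
  rw [abs_lt] at hu ht hm
  rcases lt_or_gt_of_ne hne with hlt | hgt
  · -- moving backward
    have habs : |G (u₀, t₀) - u₀| = u₀ - G (u₀, t₀) := by
      rw [abs_of_neg (by linarith)]; ring
    rw [habs] at hη₁' hle2
    have hg_lt : ∀ v, |v - u₀| < η → g v < u₀ - η := by
      intro v hv
      have h1 := hη₁' v t (lt_of_lt_of_le hv hle1) (lt_of_lt_of_le (abs_lt.mpr ht) hle1)
      rw [abs_lt] at h1
      simp only [hg]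
      linarith [h1.2]
    have hgu : g u < u₀ - η := hg_lt u (abs_lt.mpr hu)
    have hgu' : g u < u := by linarith
    -- a fixed point in [u₀ + η - 1, u₀ + η)
    obtain ⟨w, hw1, hw2, hw3⟩ : ∃ w, g w = w ∧ u₀ + η - 1 ≤ w ∧ w < u₀ + η := by
      refine ⟨w₀ + ⌈u₀ + η - 1 - w₀⌉, hwk _, ?_, ?_⟩
      · linarith [Int.le_ceil (u₀ + η - 1 - w₀)]
      · linarith [Int.ceil_lt_add_one (u₀ + η - 1 - w₀)]
    have hw4 : w ≤ u₀ - η := by
      by_contra hcon
      push Not at hcon
      have := hg_lt w (abs_lt.mpr ⟨by linarith, by linarith⟩)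
      rw [hw1] at this
      linarith
    have h1 : w < g^[n] u := by
      have h2 : g^[n] w = w := Function.iterate_fixed hw1 n
      rw [← h2]
      exact hgm.iterate n (by linarith)
    have h2 := iter_le_of_lt hgm hgu' hn
    rcases le_or_gt m 0 with hm0 | hm0
    · have : (m : ℝ) ≤ 0 := by exact_mod_cast hm0
      linarith
    · have : (1 : ℝ) ≤ m := by exact_mod_cast hm0
      linarith
  · have habs : |G (u₀, t₀) - u₀| = G (u₀, t₀) - u₀ := abs_of_pos (by linarith)
    rw [habs] at hη₁' hle2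
    have hg_gt : ∀ v, |v - u₀| < η → u₀ + η < g v := by
      intro v hv
      have h1 := hη₁' v t (lt_of_lt_of_le hv hle1) (lt_of_lt_of_le (abs_lt.mpr ht) hle1)
      rw [abs_lt] at h1
      simp only [hg]
      linarith [h1.1]
    have hgu : u₀ + η < g u := hg_gt u (abs_lt.mpr hu)
    have hgu' : u < g u := by linarith
    obtain ⟨w, hw1, hw2, hw3⟩ : ∃ w, g w = w ∧ u₀ - η < w ∧ w ≤ u₀ - η + 1 := by
      refine ⟨w₀ + ⌊u₀ - η + 1 - w₀⌋, hwk _, ?_, ?_⟩
      · linarith [Int.sub_one_lt_floor (u₀ - η + 1 - w₀)]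
      · linarith [Int.floor_le (u₀ - η + 1 - w₀)]
    have hw4 : u₀ + η ≤ w := by
      by_contra hcon
      push Not at hcon
      have := hg_gt w (abs_lt.mpr ⟨by linarith, by linarith⟩)
      rw [hw1] at this
      linarith
    have h1 : g^[n] u < w := by
      have h2 : g^[n] w = w := Function.iterate_fixed hw1 n
      rw [← h2]
      exact hgm.iterate n (by linarith)
    have h2 := iter_ge_of_lt hgm hgu' hn
    rcases le_or_gt 0 m with hm0 | hm0
    · have : (0 : ℝ) ≤ m := by exact_mod_cast hm0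
      linarith
    · have : (m : ℝ) ≤ -1 := by
        have : m ≤ -1 := by omega
        exact_mod_cast this
      linarith

/-- **A curve of fixed points.**  Let the cylinder be foliated by invariant curves of the
homeomorphism `T`, which has no wandering open sets.  If the displacement of all the points of one
leaf is larger and that of all the points of another one is smaller than `K` periods, then there is
a leaf consisting of fixed points whose displacement is `K` periods. -/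
theorem exists_fixed_leaf (hL : 0 < L) [T2Space Y]
    (hTc : Continuous T)
    (hTi : Function.Injective T) (y : Y → ℝ) (hy : Continuous y) (hyi : Function.Injective y)
    (hD : Continuous D)
    (hTD : ∀ z, (T z).1 = z.1 + ((D z : ℝ) : AddCircle L))
    (hcons : ∀ V : Set (AddCircle L × Y), IsOpen V → V.Nonempty → ∃ z ∈ V, ∃ n, n ≠ 0 ∧ T^[n] z ∈ V)
    (F : Set (Set (AddCircle L × Y)))
    (hpart : ∀ z, ∃! Γ, Γ ∈ F ∧ z ∈ Γ)
    (hric : ∀ Γ ∈ F, IsRIC T Γ)
    (htube : ∀ Γ ∈ F, ∃ φ : AddCircle (1 : ℝ) × ℝ → AddCircle L × Y, IsOpenEmbedding φ ∧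
      (range fun u => φ (u, 0)) = Γ ∧ ∀ t, (range fun u => φ (u, t)) ∈ F)
    (hpos : ∃ Γ ∈ F, ∀ z ∈ Γ, K * L < D z) (hneg : ∃ Γ ∈ F, ∀ z ∈ Γ, D z < K * L) :
    ∃ Γ ∈ F, ∀ z ∈ Γ, T z = z ∧ D z = K * L := by
  by_contra hno
  push Not at hno
  -- tubes with lifts
  have htube' : ∀ z : AddCircle L × Y, ∃ φ X G, IsTube T D K φ X G ∧
      (∀ t, (range fun u => φ (u, t)) ∈ F) ∧ ∃ u : ℝ, φ ((u : AddCircle (1:ℝ)), 0) = z := by
    intro z
    obtain ⟨Γ, ⟨hΓ, hz⟩, -⟩ := hpart z
    obtain ⟨φ, hφ, h0, hF⟩ := htube Γ hΓ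
    obtain ⟨φ', X, G, hT, hr⟩ := exists_tube hL T hTc hTi y hy hyi D hD hTD φ hφ
      (fun t => hric _ (hF t)) K
    refine ⟨φ', X, G, hT, fun t => by rw [hr]; exact hF t, ?_⟩
    rw [← h0, ← hr] at hz
    obtain ⟨u, hu⟩ := hz
    obtain ⟨x, rfl⟩ := coe_surj u
    exact ⟨x, hu⟩
  set P : Set (AddCircle L × Y) := {z | ∃ Γ ∈ F, z ∈ Γ ∧ Pos L T D K Γ} with hP
  set N : Set (AddCircle L × Y) := {z | ∃ Γ ∈ F, z ∈ Γ ∧ Neg L T D K Γ} with hN
  have huniq : ∀ {Γ Γ' : Set (AddCircle L × Y)} {z}, Γ ∈ F → Γ' ∈ F → z ∈ Γ → z ∈ Γ' → Γ = Γ' := by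
    intro Γ Γ' z h1 h2 h3 h4
    exact (hpart z).unique ⟨h1, h3⟩ ⟨h2, h4⟩
  -- membership in tube coordinates
  have memP : ∀ {φ X G}, IsTube T D K φ X G → (∀ t, (range fun u => φ (u, t)) ∈ F) →
      ∀ (u : AddCircle (1:ℝ)) t, φ (u, t) ∈ P ↔ ∀ v, v < G (v, t) := by
    intro φ X G hT hF u t
    rw [← hT.pos_iff hL]
    constructor
    · rintro ⟨Γ, hΓ, hz, h⟩
      rwa [huniq hΓ (hF t) hz ⟨u, rfl⟩] at h
    · intro h
      exact ⟨_, hF t, ⟨u, rfl⟩, h⟩
  have memN : ∀ {φ X G}, IsTube T D K φ X G → (∀ t, (range fun u => φ (u, t)) ∈ F) →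
      ∀ (u : AddCircle (1:ℝ)) t, φ (u, t) ∈ N ↔ ∀ v, G (v, t) < v := by
    intro φ X G hT hF u t
    rw [← hT.neg_iff hL]
    constructor
    · rintro ⟨Γ, hΓ, hz, h⟩
      rwa [huniq hΓ (hF t) hz ⟨u, rfl⟩] at h
    · intro h
      exact ⟨_, hF t, ⟨u, rfl⟩, h⟩
  -- saturated neighbourhoods
  have hnhd : ∀ {φ : AddCircle (1 : ℝ) × ℝ → AddCircle L × Y} {X G}, IsTube T D K φ X G →
      ∀ (u : AddCircle (1:ℝ)) {p : ℝ → Prop}, (∀ᶠ t in 𝓝 (0:ℝ), p t) →
      ∀ᶠ z in 𝓝 (φ (u, 0)), ∃ v t, φ (v, t) = z ∧ p t := by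
    intro φ X G hT u p hp
    rw [← hT.emb.map_nhds_eq, eventually_map]
    have : ∀ᶠ q : AddCircle (1:ℝ) × ℝ in 𝓝 (u, 0), p q.2 :=
      (continuous_snd.tendsto (u, (0:ℝ))).eventually hp
    filter_upwards [this] with q hq
    exact ⟨q.1, q.2, rfl, hq⟩
  have hPo : IsOpen P := by
    rw [isOpen_iff_eventually]
    intro z hz
    obtain ⟨φ, X, G, hT, hF, u, rfl⟩ := htube' z
    filter_upwards [hnhd hT _ (hT.forward_open ((memP hT hF _ _).mp hz))]
    rintro _ ⟨v, t, rfl, h⟩
    exact (memP hT hF v t).mpr h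
  have hNo : IsOpen N := by
    rw [isOpen_iff_eventually]
    intro z hz
    obtain ⟨φ, X, G, hT, hF, u, rfl⟩ := htube' z
    filter_upwards [hnhd hT _ (hT.backward_open ((memN hT hF _ _).mp hz))]
    rintro _ ⟨v, t, rfl, h⟩
    exact (memN hT hF v t).mpr h
  have hdisj : Disjoint P N := by
    rw [Set.disjoint_left]
    intro z hz hz'
    obtain ⟨φ, X, G, hT, hF, u, rfl⟩ := htube' z
    have h1 := (memP hT hF _ _).mp hz 0
    have h2 := (memN hT hF _ _).mp hz' 0
    linarith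
  -- closure of P and of N do not meet
  have hcl : Disjoint (closure P) (closure N) := by
    rw [Set.disjoint_left]
    intro z hz hz'
    obtain ⟨φ, X, G, hT, hF, u, rfl⟩ := htube' z
    have h1 : ∀ v, v ≤ G (v, 0) := by
      intro v
      by_contra hcon
      push Not at hcon
      have hev : ∀ᶠ t in 𝓝 (0:ℝ), G (v, t) < v := by
        have hc : Continuous fun t => G (v, t) := by
          have := hT.contG
          fun_prop
        exact hc.continuousAt.eventually (gt_mem_nhds hcon)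
      have h2 := (mem_closure_iff_frequently.mp hz).and_eventually (hnhd hT (u : AddCircle (1:ℝ)) hev)
      obtain ⟨z', hz', v', t, rfl, h3⟩ := h2.exists
      have := (memP hT hF _ _).mp hz' v
      linarith
    have h2 : ∀ v, G (v, 0) ≤ v := by
      intro v
      by_contra hcon
      push Not at hcon
      have hev : ∀ᶠ t in 𝓝 (0:ℝ), v < G (v, t) := by
        have hc : Continuous fun t => G (v, t) := by
          have := hT.contG
          fun_prop
        exact hc.continuousAt.eventually (lt_mem_nhds hcon)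
      have h2 := (mem_closure_iff_frequently.mp hz').and_eventually (hnhd hT (u : AddCircle (1:ℝ)) hev)
      obtain ⟨z', hz', v', t, rfl, h3⟩ := h2.exists
      have := (memN hT hF _ _).mp hz' v
      linarith
    obtain ⟨z, ⟨v, rfl⟩, h3⟩ := hno _ (hF 0)
    obtain ⟨x, rfl⟩ := coe_surj v
    have h4 := hT.fixed (le_antisymm (h2 x) (h1 x))
    exact h3 h4.1 h4.2
  -- the union of the closures is everything
  have huniv : ∀ z, z ∈ closure P ∨ z ∈ closure N := by
    intro z
    by_contra hcon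
    push Not at hcon
    obtain ⟨hz, hz'⟩ := hcon
    obtain ⟨φ, X, G, hT, hF, u, rfl⟩ := htube' z
    have h1 : ∀ᶠ z in 𝓝 (φ ((u : AddCircle (1:ℝ)), 0)), z ∉ P ∧ z ∉ N := by
      have e1 : (closure P)ᶜ ∈ 𝓝 (φ ((u : AddCircle (1:ℝ)), 0)) :=
        isClosed_closure.isOpen_compl.mem_nhds hz
      have e2 : (closure N)ᶜ ∈ 𝓝 (φ ((u : AddCircle (1:ℝ)), 0)) :=
        isClosed_closure.isOpen_compl.mem_nhds hz'
      filter_upwards [e1, e2] with z h3 h4
      exact ⟨fun h => h3 (subset_closure h), fun h => h4 (subset_closure h)⟩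
    have hc : Continuous fun t : ℝ => φ ((u : AddCircle (1:ℝ)), t) := by
      have := hT.emb.continuous
      fun_prop
    have h2 : ∀ᶠ t in 𝓝 (0:ℝ), φ ((u : AddCircle (1:ℝ)), t) ∉ P ∧ φ ((u : AddCircle (1:ℝ)), t) ∉ N :=
      hc.continuousAt.eventually h1
    rw [Metric.eventually_nhds_iff] at h2
    obtain ⟨ε, hε, h3⟩ := h2
    have h4 : ∀ t ∈ Ioo (-ε) ε, ∃ w, G (w, t) = w := by
      intro t ht
      have h5 := h3 (y := t) (by rw [Real.dist_eq, sub_zero, abs_lt]; exact ht)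
      rcases trichotomy_of_cont _ (hT.contGt t) with h6 | h6 | h6
      · exact h6
      · exact absurd ((memP hT hF _ _).mpr h6) h5.1
      · exact absurd ((memN hT hF _ _).mpr h6) h5.2
    obtain ⟨z, ⟨v, rfl⟩, h5⟩ := hno _ (hF 0)
    obtain ⟨x, rfl⟩ := coe_surj v
    have h6 := hT.fixed (hT.fixed_of_recurrent hcons h4 (t₀ := 0) ⟨by linarith, hε⟩ x)
    exact h5 h6.1 h6.2
  -- connectedness
  have hPne : P.Nonempty := by
    obtain ⟨Γ, hΓ, h⟩ := hpos
    obtain ⟨c, -, -, hc, -⟩ := hric Γ hΓ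
    refine ⟨c 0, Γ, hΓ, by rw [← hc]; exact ⟨0, rfl⟩, 1, fun z hz => ?_⟩
    have := h z hz
    simp only [DN, Finset.range_one, Finset.sum_singleton, Function.iterate_zero, id_eq]
    linarith
  have hNne : N.Nonempty := by
    obtain ⟨Γ, hΓ, h⟩ := hneg
    obtain ⟨c, -, -, hc, -⟩ := hric Γ hΓ
    refine ⟨c 0, Γ, hΓ, by rw [← hc]; exact ⟨0, rfl⟩, 1, fun z hz => ?_⟩
    have := h z hz
    simp only [DN, Finset.range_one, Finset.sum_singleton, Function.iterate_zero, id_eq]
    linarith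
  have hconn : IsPreconnected (univ : Set (AddCircle L × Y)) := isPreconnected_univ
  rw [isPreconnected_closed_iff] at hconn
  obtain ⟨z, -, hz⟩ := hconn (closure P) (closure N) isClosed_closure isClosed_closure
    (fun z _ => huniv z) ⟨hPne.some, trivial, subset_closure hPne.some_mem⟩
    ⟨hNne.some, trivial, subset_closure hNne.some_mem⟩
  exact Set.disjoint_left.mp hcl hz.1 hz.2

end Leaf

end Pool.Agent.W714.Coin
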