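import Pool.Agent.H738R2.CylStmt

set_option autoImplicit false

/-!
# MP_61130f_an: integrability of the map of the capped cylinder

The curve, the phase cylinder, the billiard map, the map `T₂` and rotational invariant curves are
defined in `Pool/Agent/H738R2/CylStmt.lean`.
-/

namespace Pool.Agent.W714.Coin

open Pool.Agent.H738R2.Cyl Topology

/-- `T` is integrable: the phase cylinder is foliated by closed curves which are not contractible in
it and each of which is invariant under `T`.  That is, there is a set `F` of rotational invariant
curves of `T` such that each point of the phase cylinder lies on exactly one of them, and such that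
each of them has an open neighbourhood which is the homeomorphic image of `circle × ℝ` under a map
`φ` for which the curve is the image of the circle `t = 0` and all the images of the circles
`t = constant` are curves in `F`. -/
def IsIntegrable {L : ℝ} (T : PhaseCylinder L → PhaseCylinder L) : Prop :=
  ∃ F : Set (Set (PhaseCylinder L)),
    (∀ z, ∃! Γ, Γ ∈ F ∧ z ∈ Γ) ∧
    (∀ Γ ∈ F, IsRotationalInvariantCurve T Γ) ∧
    ∀ Γ ∈ F, ∃ φ : AddCircle (1 : ℝ) × ℝ → PhaseCylinder L, IsOpenEmbedding φ ∧
      (Set.range fun u => φ (u, 0)) = Γ ∧ ∀ t, (Set.range fun u => φ (u, t)) ∈ F

end Pool.Agent.W714.Coin
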