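import Pool.Agent.W714.Coin.Chord

set_option autoImplicit false

/-!
# The billiard map as a continuous map of the phase cylinder
-/

namespace Pool.Agent.W714.Coin

open Pool.Agent.H738R2.Cyl Complex Set Topology Filter

variable {γ : ℝ → ℂ} {L : ℝ}

/-- the parameter length of the chord with given start and angle -/
noncomputable def len (h : StrictlyConvexCurve γ L) (z : PhaseCylinder L) : ℝ :=
  (exists_angA_eq h z.1 z.2.2).choose

lemma len_mem (h : StrictlyConvexCurve γ L) (z : PhaseCylinder L) : len h z ∈ Ioo 0 L :=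
  (exists_angA_eq h z.1 z.2.2).choose_spec.1

lemma angA_len (h : StrictlyConvexCurve γ L) (z : PhaseCylinder L) :
    angA h z.1 (len h z) = z.2 := (exists_angA_eq h z.1 z.2.2).choose_spec.2

lemma len_eq (h : StrictlyConvexCurve γ L) {z : PhaseCylinder L} {x : ℝ} (hx : x ∈ Ioo 0 L)
    (he : angA h z.1 x = z.2) : len h z = x := by
  apply (strictMonoOn_angA h z.1).injOn (len_mem h z) hx
  simp only
  rw [angA_len, he]

lemma lt_len_iff (h : StrictlyConvexCurve γ L) (z : PhaseCylinder L) {x : ℝ} (hx : x ∈ Ioo 0 L) :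
    x < len h z ↔ angA h z.1 x < z.2 := by
  rw [← angA_len h z]
  exact ((strictMonoOn_angA h z.1).lt_iff_lt hx (len_mem h z)).symm

lemma len_lt_iff (h : StrictlyConvexCurve γ L) (z : PhaseCylinder L) {x : ℝ} (hx : x ∈ Ioo 0 L) :
    len h z < x ↔ z.2 < angA h z.1 x := by
  rw [← angA_len h z]
  exact ((strictMonoOn_angA h z.1).lt_iff_lt (len_mem h z) hx).symm

lemma continuous_len (h : StrictlyConvexCurve γ L) : Continuous (len h) := by
  rw [continuous_iff_continuousAt]
  intro z
  have hz := len_mem h z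
  have hc : ∀ x ∈ Ioo 0 L, ContinuousAt (fun z' : PhaseCylinder L => angA h z'.1 x) z := by
    intro x hx
    have h1 := continuousAt_angA h z.1 hx
    exact ContinuousAt.comp (f := fun z' : PhaseCylinder L => (z'.1, x)) (x := z) h1 (by fun_prop)
  have hc2 : ContinuousAt (fun z' : PhaseCylinder L => ((z'.2 : ℝ))) z := by fun_prop
  apply tendsto_order.2
  constructor
  · intro a ha
    obtain ⟨x, hx1, hx2⟩ := exists_between (max_lt ha hz.1)
    have hx : x ∈ Ioo 0 L := ⟨(le_max_right _ _).trans_lt hx1, hx2.trans hz.2⟩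
    have h1 := (lt_len_iff h z hx).mp hx2
    filter_upwards [(hc x hx).eventually_lt hc2 h1] with z' hz'
    exact ((le_max_left _ _).trans_lt hx1).trans ((lt_len_iff h z' hx).mpr hz')
  · intro a ha
    obtain ⟨x, hx1, hx2⟩ := exists_between (lt_min ha hz.2)
    have hx : x ∈ Ioo 0 L := ⟨hz.1.trans hx1, hx2.trans_le (min_le_right _ _)⟩
    have h1 := (len_lt_iff h z hx).mp hx1
    filter_upwards [hc2.eventually_lt (hc x hx) h1] with z' hz'
    exact ((len_lt_iff h z' hx).mpr hz').trans (hx2.trans_le (min_le_left _ _))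

/-- the billiard map -/
noncomputable def bmap (h : StrictlyConvexCurve γ L) (z : PhaseCylinder L) : PhaseCylinder L :=
  (z.1 + ((len h z : ℝ) : AddCircle L), ⟨angB h z.1 (len h z), angB_mem h z.1 (len_mem h z)⟩)

lemma continuous_bmap (h : StrictlyConvexCurve γ L) : Continuous (bmap h) := by
  have h1 := continuous_len h
  have h2 : Continuous ((↑) : ℝ → AddCircle L) := continuous_coe
  apply Continuous.prodMk
  · fun_prop
  · apply Continuous.subtype_mk
    rw [continuous_iff_continuousAt]
    intro z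
    exact ContinuousAt.comp (f := fun z : PhaseCylinder L => (z.1, len h z)) (x := z)
      (continuousAt_angB h z.1 (len_mem h z)) (by fun_prop)

lemma isBilliardMap_bmap (h : StrictlyConvexCurve γ L) : IsBilliardMap γ L (bmap h) := by
  intro z
  obtain ⟨s, hs⟩ := coe_surjL z.1
  refine ⟨s, s + len h z, hs, ?_, ?_⟩
  · rw [AddCircle.coe_add, hs]; rfl
  · have h1 := chord h s (len_mem h z)
    rw [hs, angA_len] at h1
    exact h1

lemma eq_bmap (h : StrictlyConvexCurve γ L) {T₁ : PhaseCylinder L → PhaseCylinder L}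
    (hT : IsBilliardMap γ L T₁) : T₁ = bmap h := by
  funext z
  obtain ⟨s, s₁, e1, e2, hc⟩ := isBilliardMap_bmap h z
  have h1 := hT.eq_of_chord h (s := s) (s₁ := s₁) (α := z.2) (α₁ := (bmap h z).2) hc
  rw [e1, e2] at h1
  exact h1

/-- the full map -/
noncomputable def tmap (h : StrictlyConvexCurve γ L) (d : ℝ) : PhaseCylinder L → PhaseCylinder L :=
  cylinderMap L d ∘ bmap h

lemma continuousAt_cot {x : ℝ} (hx : x ∈ Ioo 0 Real.pi) : ContinuousAt Real.cot x := by
  have h1 : Real.cot = fun x => Real.cos x / Real.sin x := by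
    funext x; exact Real.cot_eq_cos_div_sin x
  rw [h1]
  exact Real.continuous_cos.continuousAt.div Real.continuous_sin.continuousAt
    (Real.sin_pos_of_pos_of_lt_pi hx.1 hx.2).ne'

lemma continuous_cot' : Continuous fun a : Ioo (0:ℝ) Real.pi => Real.cot (a : ℝ) := by
  rw [continuous_iff_continuousAt]
  intro a
  exact ContinuousAt.comp (f := fun a : Ioo (0:ℝ) Real.pi => (a : ℝ)) (x := a)
    (continuousAt_cot a.2) (by fun_prop)

lemma continuous_cylinderMap (L d : ℝ) : Continuous (cylinderMap L d) := by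
  have h2 : Continuous ((↑) : ℝ → AddCircle L) := continuous_coe
  have h3 := continuous_cot'
  unfold cylinderMap
  apply Continuous.prodMk
  · apply Continuous.add continuous_fst
    apply h2.comp
    exact continuous_const.mul (h3.comp continuous_snd)
  · exact continuous_snd

lemma continuous_tmap (h : StrictlyConvexCurve γ L) (d : ℝ) : Continuous (tmap h d) :=
  (continuous_cylinderMap L d).comp (continuous_bmap h)

lemma tmap_injective (h : StrictlyConvexCurve γ L) (d : ℝ) : Function.Injective (tmap h d) :=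
  (cylinderMap_injective L d).comp ((isBilliardMap_bmap h).injective h)

/-- the displacement of the map -/
noncomputable def disp (h : StrictlyConvexCurve γ L) (d : ℝ) (z : PhaseCylinder L) : ℝ :=
  len h z + d * Real.cot (bmap h z).2

lemma continuous_disp (h : StrictlyConvexCurve γ L) (d : ℝ) : Continuous (disp h d) := by
  have h1 := continuous_len h
  have h3 : Continuous fun z => Real.cot ((bmap h z).2 : ℝ) :=
    continuous_cot'.comp (continuous_snd.comp (continuous_bmap h))
  unfold disp
  fun_prop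

lemma tmap_fst (h : StrictlyConvexCurve γ L) (d : ℝ) (z : PhaseCylinder L) :
    (tmap h d z).1 = z.1 + ((disp h d z : ℝ) : AddCircle L) := by
  rw [disp, AddCircle.coe_add, ← add_assoc]
  rfl

lemma tmap_snd (h : StrictlyConvexCurve γ L) (d : ℝ) (z : PhaseCylinder L) :
    (tmap h d z).2 = (bmap h z).2 := rfl

/-- chords with small angle at the start have small angle at the end, uniformly -/
lemma exists_small (h : StrictlyConvexCurve γ L) {ε : ℝ} (hε : 0 < ε) :
    ∃ η > 0, ∀ z : PhaseCylinder L, (z.2 : ℝ) < η → ((bmap h z).2 : ℝ) < ε ∧ len h z < ε := by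
  -- closeness of the argument at 1
  obtain ⟨r, hr, hr'⟩ : ∃ r > 0, ∀ z : ℂ, ‖z - 1‖ < r → |arg z| < ε := by
    have := Metric.continuousAt_iff.mp (continuousAt_arg one_mem_slitPlane) ε hε
    obtain ⟨r, hr, h1⟩ := this
    refine ⟨r, hr, fun z hz => ?_⟩
    have := h1 (by rwa [dist_eq_norm] : dist z 1 < r)
    rwa [arg_one, Real.dist_eq, sub_zero] at this
  -- uniform continuity of the tangent
  have huc : UniformContinuous (gd h) := by
    have : Fact (0 < L) := ⟨h.length_pos⟩
    exact CompactSpace.uniformContinuous_of_continuous (continuous_gd h)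
  obtain ⟨δ, hδ, hδ'⟩ : ∃ δ > 0, ∀ s t : ℝ, |s - t| ≤ δ → ‖deriv γ s - deriv γ t‖ ≤ r / 2 := by
    have h1 : UniformContinuous (deriv γ) := by
      have h2 : deriv γ = gd h ∘ ((↑) : ℝ → AddCircle L) := by funext s; rfl
      rw [h2]
      apply huc.comp
      have : UniformContinuous (QuotientAddGroup.mk' (AddSubgroup.zmultiples L)) :=
        uniformContinuous_of_continuousAt_zero _ (continuous_coe.continuousAt)
      exact this
    obtain ⟨δ, hδ, h2⟩ := Metric.uniformContinuous_iff.mp h1 (r / 2) (by positivity)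
    refine ⟨δ / 2, by positivity, fun s t hst => ?_⟩
    have := h2 (a := s) (b := t) (by rw [Real.dist_eq]; linarith)
    rw [dist_eq_norm] at this
    exact this.le
  have hsmall : ∀ (s x : ℝ), x ∈ Ioo 0 L → x ≤ δ → angB h (s : AddCircle L) x < ε := by
    intro s x hx hxδ
    have h1 : ‖γ (s + x) - γ s - (x : ℂ) * deriv γ (s + x)‖ ≤ r / 2 * x := by
      have h2 : ∀ t ∈ Icc s (s + x), HasDerivWithinAt
          (fun t : ℝ => γ t - (t : ℂ) * deriv γ (s + x)) (deriv γ t - deriv γ (s + x))
          (Icc s (s + x)) t := by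
        intro t _
        have h3 : HasDerivAt (fun t : ℝ => (t : ℂ) * deriv γ (s + x)) (1 * deriv γ (s + x)) t :=
          (HasDerivAt.mul_const (Complex.ofRealCLM.hasDerivAt (x := t)) _)
        rw [one_mul] at h3
        exact ((hasDerivAt h t).sub h3).hasDerivWithinAt
      have h4 := (convex_Icc s (s + x)).norm_image_sub_le_of_norm_hasDerivWithin_le (C := r / 2) h2
        (fun t ht => hδ' _ _ (by rw [abs_le]; constructor <;> linarith [ht.1, ht.2]))
        (left_mem_Icc.mpr (by linarith [hx.1])) (right_mem_Icc.mpr (by linarith [hx.1]))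
      have h5 : γ (s + x) - ((s + x : ℝ) : ℂ) * deriv γ (s + x) - (γ s - (s : ℂ) * deriv γ (s + x))
          = γ (s + x) - γ s - (x : ℂ) * deriv γ (s + x) := by push_cast; ring
      rw [h5] at h4
      rw [add_sub_cancel_left, Real.norm_eq_abs, abs_of_pos hx.1] at h4
      exact h4
    -- the argument of ZB
    have h2 : ‖ZB h (s : AddCircle L) x - x‖ ≤ r / 2 * x := by
      have h3 : ZB h (s : AddCircle L) x - x
          = (starRingEnd ℂ) (γ (s + x) - γ s - (x : ℂ) * deriv γ (s + x)) * deriv γ (s + x) := by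
        rw [ZB_coe]
        simp only [map_sub, map_mul, Complex.conj_ofReal]
        linear_combination (x : ℂ) * conj_deriv_mul h (s + x)
      rw [h3, norm_mul, Complex.norm_conj, h.unit_speed, mul_one]
      exact h1
    have hx0 : 0 < x⁻¹ := inv_pos.mpr hx.1
    have h3 : ‖((x⁻¹ : ℝ) : ℂ) * ZB h (s : AddCircle L) x - 1‖ < r := by
      have hxc : (x : ℂ) ≠ 0 := by exact_mod_cast hx.1.ne'
      have h4 : ((x⁻¹ : ℝ) : ℂ) * ZB h (s : AddCircle L) x - 1
          = ((x⁻¹ : ℝ) : ℂ) * (ZB h (s : AddCircle L) x - x) := by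
        push_cast
        field_simp
      rw [h4, norm_mul, Complex.norm_real, Real.norm_eq_abs, abs_of_pos hx0]
      calc x⁻¹ * ‖ZB h (s : AddCircle L) x - x‖ ≤ x⁻¹ * (r / 2 * x) :=
            mul_le_mul_of_nonneg_left h2 hx0.le
        _ = r / 2 := by field_simp [hx.1.ne']
        _ < r := by linarith
    have h5 := hr' _ h3
    rw [arg_real_mul _ hx0] at h5
    exact (le_abs_self _).trans_lt h5
  -- minimal angle
  have hL := h.length_pos
  set x₀ : ℝ := min (min δ (L / 2)) (ε / 2) with hx₀
  have hx₀mem : x₀ ∈ Ioo 0 L := by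
    constructor
    · exact lt_min (lt_min hδ (by linarith)) (by linarith)
    · exact ((min_le_left _ _).trans (min_le_right _ _)).trans_lt (by linarith)
  have hc : Continuous fun w : AddCircle L => angA h w x₀ := by
    rw [continuous_iff_continuousAt]
    intro w
    exact ContinuousAt.comp (f := fun w : AddCircle L => (w, x₀)) (x := w)
      (continuousAt_angA h w hx₀mem) (by fun_prop)
  have : Fact (0 < L) := ⟨hL⟩
  obtain ⟨w₀, -, hw₀⟩ := isCompact_univ.exists_isMinOn (s := (univ : Set (AddCircle L)))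
    ⟨0, trivial⟩ hc.continuousOn
  refine ⟨angA h w₀ x₀, (angA_mem h w₀ hx₀mem).1, fun z hz => ?_⟩
  have h1 : (z.2 : ℝ) < angA h z.1 x₀ := hz.trans_le (hw₀ (mem_univ z.1))
  have h2 := (len_lt_iff h z hx₀mem).mpr h1
  constructor
  · obtain ⟨s, hs⟩ := coe_surjL z.1
    have h3 := hsmall s (len h z) (len_mem h z)
      (h2.le.trans ((min_le_left _ _).trans (min_le_left _ _)))
    rw [hs] at h3
    exact h3
  · exact h2.trans_le ((min_le_right _ _).trans (by linarith))

/-- the displacement is large near the lower boundary component -/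
lemma exists_disp_large (h : StrictlyConvexCurve γ L) {d : ℝ} (hd : 0 < d) (M : ℝ) :
    ∃ η > 0, ∀ z : PhaseCylinder L, (z.2 : ℝ) < η → M < disp h d z := by
  -- cot is large near 0
  have h1 : Tendsto (fun x : ℝ => d * Real.cot x) (𝓝[>] 0) atTop := by
    apply Tendsto.const_mul_atTop hd
    have e : Real.cot = fun x => (Real.tan x)⁻¹ := by funext x; exact (Real.tan_inv_eq_cot x).symm
    rw [e]
    apply Tendsto.comp tendsto_inv_nhdsGT_zero
    rw [tendsto_nhdsWithin_iff]
    constructor
    · have : ContinuousAt Real.tan 0 := Real.continuousAt_tan.mpr (by simp)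
      have h2 := this.tendsto
      rw [Real.tan_zero] at h2
      exact h2.mono_left nhdsWithin_le_nhds
    · filter_upwards [Ioo_mem_nhdsGT (show (0:ℝ) < Real.pi / 2 by positivity)] with x hx
      exact Real.tan_pos_of_pos_of_lt_pi_div_two hx.1 hx.2
  have h2 := h1.eventually (eventually_gt_atTop M)
  rw [eventually_nhdsWithin_iff, Metric.eventually_nhds_iff] at h2
  obtain ⟨ε, hε, h3⟩ := h2
  obtain ⟨η, hη, h4⟩ := exists_small h hε
  refine ⟨η, hη, fun z hz => ?_⟩
  have h5 := (h4 z hz).1
  have h6 := (bmap h z).2.2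
  have h7 := h3 (y := ((bmap h z).2 : ℝ)) (by rw [Real.dist_eq, sub_zero, abs_of_pos h6.1]; exact h5)
    h6.1
  have h8 := (len_mem h z).1
  rw [disp]
  linarith

end Pool.Agent.W714.Coin
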