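import Pool.Agent.W714.Coin.Map

set_option autoImplicit false
set_option linter.unusedSectionVars false

/-!
# The invariant measure of the map
-/

namespace Pool.Agent.W714.Coin

open Pool.Agent.H738R2.Cyl Complex Set Topology Filter MeasureTheory

variable {γ : ℝ → ℂ} {L : ℝ}

/-- length measure on the interval `(0, b)` -/
noncomputable def nu (b : ℝ) : Measure (Ioo (0:ℝ) b) := Measure.comap Subtype.val volume

lemma lintegral_nu (b : ℝ) (f : ℝ → ENNReal) : ∫⁻ x, f x ∂(nu b) = ∫⁻ x in Ioo 0 b, f x :=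
  lintegral_subtype_comap measurableSet_Ioo f

instance (b : ℝ) : IsFiniteMeasure (nu b) := by
  constructor
  rw [nu, comap_subtype_coe_apply measurableSet_Ioo, image_univ, Subtype.range_coe_subtype]
  change volume (Ioo 0 b) < ⊤
  rw [Real.volume_Ioo]
  exact ENNReal.ofReal_lt_top

instance (b : ℝ) : (nu b).IsOpenPosMeasure := by
  constructor
  intro U hU hne
  rw [nu, comap_subtype_coe_apply measurableSet_Ioo]
  have h1 : IsOpen (Subtype.val '' U : Set ℝ) := isOpen_Ioo.isOpenMap_subtype_val U hU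
  exact (h1.measure_pos _ (hne.image _)).ne'

/-- change of variables on intervals -/
lemma change_var {a b : ℝ} (f : Ioo (0:ℝ) a → Ioo (0:ℝ) b) (F F' : ℝ → ℝ)
    (hF : ∀ x : Ioo (0:ℝ) a, F x = f x)
    (hd : ∀ x ∈ Ioo 0 a, HasDerivAt F (F' x) x) (hpos : ∀ x ∈ Ioo 0 a, 0 < F' x)
    (hinj : Function.Injective f) (hsurj : Function.Surjective f) (g : Ioo (0:ℝ) b → ENNReal) :
    ∫⁻ y, g y ∂(nu b) = ∫⁻ x, ENNReal.ofReal (F' x) * g (f x) ∂(nu a) := by
  classical
  set g' : ℝ → ENNReal := fun y => if h : y ∈ Ioo 0 b then g ⟨y, h⟩ else 0 with hg'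
  have e1 : ∀ y : Ioo (0:ℝ) b, g y = g' y := by
    intro y
    simp only [hg', y.2, dif_pos]
  have e2 : ∀ x : Ioo (0:ℝ) a, ENNReal.ofReal (F' x) * g (f x)
      = (fun x : ℝ => ENNReal.ofReal |F' x| * g' (F x)) x := by
    intro x
    simp only
    rw [hF x, ← e1, abs_of_pos (hpos x x.2)]
  simp_rw [e1]
  rw [lintegral_nu b g']
  have e3 : ∫⁻ x, ENNReal.ofReal (F' x) * g' (f x) ∂(nu a)
      = ∫⁻ x in Ioo 0 a, ENNReal.ofReal |F' x| * g' (F x) := by
    rw [← lintegral_nu a (fun x : ℝ => ENNReal.ofReal |F' x| * g' (F x))]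
    apply lintegral_congr
    intro x
    rw [hF x, abs_of_pos (hpos x x.2)]
  rw [e3]
  have himg : F '' Ioo 0 a = Ioo 0 b := by
    ext y
    constructor
    · rintro ⟨x, hx, rfl⟩
      rw [show x = ((⟨x, hx⟩ : Ioo (0:ℝ) a) : ℝ) from rfl, hF]
      exact (f ⟨x, hx⟩).2
    · intro hy
      obtain ⟨x, hx⟩ := hsurj ⟨y, hy⟩
      refine ⟨x, x.2, ?_⟩
      rw [hF, hx]
  have hinj' : InjOn F (Ioo 0 a) := by
    intro x hx y hy hxy
    have h1 := hF ⟨x, hx⟩
    have h2 := hF ⟨y, hy⟩
    simp only at h1 h2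
    have h3 : f ⟨x, hx⟩ = f ⟨y, hy⟩ := by
      apply Subtype.ext
      rw [← h1, ← h2, hxy]
    have := hinj h3
    exact congrArg Subtype.val this
  rw [← himg]
  exact lintegral_image_eq_lintegral_abs_deriv_mul measurableSet_Ioo
    (fun x hx => (hd x hx).hasDerivWithinAt) hinj' g'

variable [hLf : Fact (0 < L)]

/-- the product measure -/
noncomputable def mu0 (L : ℝ) [Fact (0 < L)] : Measure (PhaseCylinder L) :=
  (volume : Measure (AddCircle L)).prod (nu Real.pi)

/-- the Liouville measure -/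
noncomputable def mu (L : ℝ) [Fact (0 < L)] : Measure (PhaseCylinder L) :=
  (mu0 L).withDensity fun z => ENNReal.ofReal (Real.sin z.2)

lemma measurable_sin2 : Measurable fun z : PhaseCylinder L => ENNReal.ofReal (Real.sin z.2) := by
  have : Measurable fun z : PhaseCylinder L => Real.sin (z.2 : ℝ) :=
    Real.measurable_sin.comp (measurable_subtype_coe.comp measurable_snd)
  exact this.ennreal_ofReal

lemma lintegral_mu {F : PhaseCylinder L → ENNReal} (hF : Measurable F) :
    ∫⁻ z, F z ∂(mu L)
      = ∫⁻ w : AddCircle L, ∫⁻ a, ENNReal.ofReal (Real.sin a) * F (w, a) ∂(nu Real.pi) := by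
  rw [mu, lintegral_withDensity_eq_lintegral_mul _ measurable_sin2 hF, mu0, lintegral_prod]
  · rfl
  · exact (measurable_sin2.mul hF).aemeasurable

instance : IsFiniteMeasure (mu L) := by
  apply isFiniteMeasure_withDensity
  have : ∫⁻ z : PhaseCylinder L, ENNReal.ofReal (Real.sin z.2) ∂(mu0 L)
      ≤ ∫⁻ z : PhaseCylinder L, 1 ∂(mu0 L) := by
    apply lintegral_mono
    intro z
    simp only
    rw [← ENNReal.ofReal_one]
    exact ENNReal.ofReal_le_ofReal (Real.sin_le_one _)
  rw [lintegral_one] at this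
  have h2 : IsFiniteMeasure (mu0 L) := by unfold mu0; infer_instance
  exact (this.trans_lt (measure_lt_top _ _)).ne

instance : (mu L).IsOpenPosMeasure := by
  constructor
  intro U hU hne h0
  rw [mu, withDensity_apply_eq_zero measurable_sin2] at h0
  have h1 : {z : PhaseCylinder L | ENNReal.ofReal (Real.sin z.2) ≠ 0} = univ := by
    ext z
    simp only [mem_ofPred_eq, mem_univ, iff_true, ne_eq, ENNReal.ofReal_eq_zero, not_le]
    exact Real.sin_pos_of_pos_of_lt_pi z.2.2.1 z.2.2.2
  rw [h1, univ_inter] at h0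
  have h2 : (mu0 L).IsOpenPosMeasure := by unfold mu0; infer_instance
  exact (hU.measure_pos (mu0 L) hne).ne' h0

lemma lintegral_lintegral_trans {X : Type*} [MeasurableSpace X] (ν : Measure X) [SFinite ν]
    (c : X → AddCircle L) (f : AddCircle L → X → ENNReal) (hf : Measurable (Function.uncurry f))
    (hf' : Measurable (Function.uncurry fun w x => f (w + c x) x)) :
    ∫⁻ w, ∫⁻ x, f (w + c x) x ∂ν = ∫⁻ w, ∫⁻ x, f w x ∂ν := by
  rw [lintegral_lintegral_swap hf'.aemeasurable, lintegral_lintegral_swap hf.aemeasurable]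
  apply lintegral_congr
  intro x
  exact lintegral_add_right_eq_self (fun w => f w x) (c x)

/-- `T₂` preserves the measure -/
lemma measurePreserving_cylinderMap (d : ℝ) :
    MeasurePreserving (cylinderMap L d) (mu L) (mu L) := by
  have hm : Measurable (cylinderMap L d) := (continuous_cylinderMap L d).measurable
  refine ⟨hm, ?_⟩
  ext E hE
  rw [Measure.map_apply hm hE, ← lintegral_indicator_one (hm hE), ← lintegral_indicator_one hE]
  have hI : Measurable (E.indicator (1 : PhaseCylinder L → ENNReal)) :=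
    measurable_one.indicator hE
  have e : (cylinderMap L d ⁻¹' E).indicator (1 : PhaseCylinder L → ENNReal)
      = E.indicator 1 ∘ cylinderMap L d := by
    funext z; rfl
  rw [e, lintegral_mu (hI.comp hm), lintegral_mu hI]
  have h1 : Measurable (Function.uncurry fun (w : AddCircle L) (a : Ioo (0:ℝ) Real.pi) =>
      ENNReal.ofReal (Real.sin a) * E.indicator (1 : PhaseCylinder L → ENNReal) (w, a)) :=
    measurable_sin2.mul hI
  have h2 : Measurable (Function.uncurry fun (w : AddCircle L) (a : Ioo (0:ℝ) Real.pi) =>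
      ENNReal.ofReal (Real.sin a) * E.indicator (1 : PhaseCylinder L → ENNReal)
        (w + ((d * Real.cot (a : ℝ) : ℝ) : AddCircle L), a)) :=
    measurable_sin2.mul (hI.comp hm)
  exact lintegral_lintegral_trans (nu Real.pi)
    (fun a => ((d * Real.cot (a : ℝ) : ℝ) : AddCircle L))
    (fun w a => ENNReal.ofReal (Real.sin a) * E.indicator (1 : PhaseCylinder L → ENNReal) (w, a))
    h1 h2

/-- density of the invariant measure on the space of chords -/
noncomputable def rho (h : StrictlyConvexCurve γ L) (w : AddCircle L) (x : ℝ) : ℝ :=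
  (ZA h w x).im * (ZB h w x).im / ‖gb h (w + (x : AddCircle L)) - gb h w‖ ^ 3

lemma norm_ZA (h : StrictlyConvexCurve γ L) (w : AddCircle L) (x : ℝ) :
    ‖ZA h w x‖ = ‖gb h (w + (x : AddCircle L)) - gb h w‖ := by
  obtain ⟨s, rfl⟩ := coe_surjL w
  rw [ZA, norm_mul, Complex.norm_conj, gd_coe, h.unit_speed, one_mul]

lemma norm_ZB (h : StrictlyConvexCurve γ L) (w : AddCircle L) (x : ℝ) :
    ‖ZB h w x‖ = ‖gb h (w + (x : AddCircle L)) - gb h w‖ := by
  obtain ⟨s, rfl⟩ := coe_surjL w
  rw [ZB, norm_mul, Complex.norm_conj, ← AddCircle.coe_add, gd_coe, h.unit_speed, mul_one]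

lemma measurable_rho (h : StrictlyConvexCurve γ L) :
    Measurable fun p : AddCircle L × ℝ => rho h p.1 p.2 := by
  have h1 := continuous_gb h
  have h3 : Continuous ((↑) : ℝ → AddCircle L) := continuous_coe
  have a1 : Continuous fun p : AddCircle L × ℝ => (ZA h p.1 p.2).im :=
    Complex.continuous_im.comp (continuous_ZA h)
  have a2 : Continuous fun p : AddCircle L × ℝ => (ZB h p.1 p.2).im :=
    Complex.continuous_im.comp (continuous_ZB h)
  have a3 : Continuous fun p : AddCircle L × ℝ => ‖gb h (p.1 + (p.2 : AddCircle L)) - gb h p.1‖ ^ 3 := by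
    fun_prop
  exact (a1.mul a2).measurable.div a3.measurable

/-- the start map on chords -/
noncomputable def Pmap (h : StrictlyConvexCurve γ L) (w : AddCircle L) (x : Ioo (0:ℝ) L) :
    Ioo (0:ℝ) Real.pi := ⟨angA h w x, angA_mem h w x.2⟩

/-- the end map on chords -/
noncomputable def Qmap (h : StrictlyConvexCurve γ L) (w : AddCircle L) (x : Ioo (0:ℝ) L) :
    Ioo (0:ℝ) Real.pi := ⟨angB h w x, angB_mem h w x.2⟩

lemma bmap_Pmap (h : StrictlyConvexCurve γ L) (w : AddCircle L) (x : Ioo (0:ℝ) L) :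
    bmap h (w, Pmap h w x) = (w + ((x : ℝ) : AddCircle L), Qmap h w x) := by
  have h1 : len h (w, Pmap h w x) = x := len_eq h x.2 rfl
  refine Prod.ext ?_ (Subtype.ext ?_)
  · change w + ((len h (w, Pmap h w x) : ℝ) : AddCircle L) = _
    rw [h1]
  · change angB h w (len h (w, Pmap h w x)) = angB h w x
    rw [h1]

lemma continuous_Qmap (h : StrictlyConvexCurve γ L) :
    Continuous fun p : AddCircle L × Ioo (0:ℝ) L => Qmap h p.1 p.2 := by
  apply Continuous.subtype_mk
  rw [continuous_iff_continuousAt]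
  intro p
  exact ContinuousAt.comp (f := fun p : AddCircle L × Ioo (0:ℝ) L => (p.1, (p.2 : ℝ))) (x := p)
      (continuousAt_angB h p.1 p.2.2) (by fun_prop)

/-- the billiard map preserves the measure -/
lemma measurePreserving_bmap (h : StrictlyConvexCurve γ L) :
    MeasurePreserving (bmap h) (mu L) (mu L) := by
  have hm : Measurable (bmap h) := (continuous_bmap h).measurable
  refine ⟨hm, ?_⟩
  ext E hE
  rw [Measure.map_apply hm hE, ← lintegral_indicator_one (hm hE), ← lintegral_indicator_one hE]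
  set I : PhaseCylinder L → ENNReal := E.indicator 1 with hIdef
  have hI : Measurable I := measurable_one.indicator hE
  have e : (bmap h ⁻¹' E).indicator (1 : PhaseCylinder L → ENNReal) = I ∘ bmap h := by
    funext z; rfl
  rw [e, lintegral_mu (hI.comp hm), lintegral_mu hI]
  -- first change of variables
  have c1 : ∀ w : AddCircle L, ∫⁻ a, ENNReal.ofReal (Real.sin a) * I (bmap h (w, a)) ∂(nu Real.pi)
      = ∫⁻ x, ENNReal.ofReal (rho h w x) * I (w + ((x : ℝ) : AddCircle L), Qmap h w x) ∂(nu L) := by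
    intro w
    obtain ⟨s, rfl⟩ := coe_surjL w
    rw [change_var (Pmap h (s : AddCircle L)) (fun x => angA h (s : AddCircle L) x)
      (fun x => (ZB h (s : AddCircle L) x).im / ‖γ (s + x) - γ s‖ ^ 2) (fun x => rfl)
      (fun x hx => hasDerivAt_angA h s hx)]
    · apply lintegral_congr
      intro x
      rw [bmap_Pmap, ← mul_assoc]
      congr 1
      have hs : Real.sin (Pmap h (s : AddCircle L) x : ℝ)
          = (ZA h (s : AddCircle L) x).im / ‖γ (s + x) - γ s‖ := by
        change Real.sin (arg (ZA h (s : AddCircle L) x)) = _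
        rw [Complex.sin_arg, norm_ZA, ← AddCircle.coe_add]
        rfl
      have hne : 0 < ‖γ (s + x) - γ s‖ := norm_pos_iff.mpr (sub_ne_zero.mpr (gamma_ne h s x.2))
      have hB := ZB_im_pos h (s : AddCircle L) x.2
      rw [hs, ← ENNReal.ofReal_mul (by positivity)]
      congr 1
      rw [rho, ← AddCircle.coe_add]
      simp only [gb_coe]
      field_simp
    · intro x hx
      have h1 := ZB_im_pos h (s : AddCircle L) hx
      have h2 : 0 < ‖γ (s + x) - γ s‖ := norm_pos_iff.mpr (sub_ne_zero.mpr (gamma_ne h s hx))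
      positivity
    · intro x y hxy
      apply Subtype.ext
      exact (strictMonoOn_angA h (s : AddCircle L)).injOn x.2 y.2 (congrArg Subtype.val hxy)
    · intro a
      obtain ⟨x, hx, hxa⟩ := exists_angA_eq h (s : AddCircle L) a.2
      exact ⟨⟨x, hx⟩, Subtype.ext hxa⟩
  -- second change of variables
  have c2 : ∀ w : AddCircle L, ∫⁻ a, ENNReal.ofReal (Real.sin a) * I (w, a) ∂(nu Real.pi)
      = ∫⁻ x, ENNReal.ofReal (rho h (w - ((x : ℝ) : AddCircle L)) x) *
          I (w, Qmap h (w - ((x : ℝ) : AddCircle L)) x) ∂(nu L) := by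
    intro w
    obtain ⟨s, rfl⟩ := coe_surjL w
    rw [change_var (fun x => Qmap h ((s : AddCircle L) - ((x : ℝ) : AddCircle L)) x)
      (fun x => angB h ((s - x : ℝ) : AddCircle L) x)
      (fun x => (ZA h ((s - x : ℝ) : AddCircle L) x).im / ‖γ s - γ (s - x)‖ ^ 2)
      (fun x => by rw [AddCircle.coe_sub]; rfl)
      (fun x hx => hasDerivAt_angB h s hx)]
    · apply lintegral_congr
      intro x
      rw [← mul_assoc]
      congr 1
      have hne : 0 < ‖γ s - γ (s - x)‖ := by
        have := gamma_ne h (s - x) x.2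
        rw [sub_add_cancel] at this
        exact norm_pos_iff.mpr (sub_ne_zero.mpr this)
      have hs : Real.sin (Qmap h ((s : AddCircle L) - ((x : ℝ) : AddCircle L)) x : ℝ)
          = (ZB h ((s - x : ℝ) : AddCircle L) x).im / ‖γ s - γ (s - x)‖ := by
        change Real.sin (arg (ZB h ((s : AddCircle L) - ((x : ℝ) : AddCircle L)) x)) = _
        rw [Complex.sin_arg, norm_ZB, ← AddCircle.coe_sub, ← AddCircle.coe_add, sub_add_cancel]
        rfl
      have hA := ZA_im_pos h ((s - x : ℝ) : AddCircle L) x.2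
      rw [hs, ← ENNReal.ofReal_mul (by positivity)]
      congr 1
      rw [rho, ← AddCircle.coe_sub, ← AddCircle.coe_add, sub_add_cancel]
      simp only [gb_coe]
      field_simp
    · intro x hx
      have h1 := ZA_im_pos h ((s - x : ℝ) : AddCircle L) hx
      have h2 : 0 < ‖γ s - γ (s - x)‖ := by
        have := gamma_ne h (s - x) hx
        rw [sub_add_cancel] at this
        exact norm_pos_iff.mpr (sub_ne_zero.mpr this)
      positivity
    · intro x y hxy
      apply Subtype.ext
      exact (strictMonoOn_angB h (s : AddCircle L)).injOn x.2 y.2 (congrArg Subtype.val hxy)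
    · intro a
      obtain ⟨x, hx, hxa⟩ := exists_angB_eq h (s : AddCircle L) a.2
      exact ⟨⟨x, hx⟩, Subtype.ext hxa⟩
  have g1 : ∫⁻ w : AddCircle L, ∫⁻ a, ENNReal.ofReal (Real.sin a) * (I ∘ bmap h) (w, a) ∂(nu Real.pi)
      = ∫⁻ w : AddCircle L, ∫⁻ x, ENNReal.ofReal (rho h w x) *
        I (w + ((x : ℝ) : AddCircle L), Qmap h w x) ∂(nu L) := lintegral_congr c1
  have g2 : ∫⁻ w : AddCircle L, ∫⁻ a, ENNReal.ofReal (Real.sin a) * I (w, a) ∂(nu Real.pi)
      = ∫⁻ w : AddCircle L, ∫⁻ x, ENNReal.ofReal (rho h (w - ((x : ℝ) : AddCircle L)) x) *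
          I (w, Qmap h (w - ((x : ℝ) : AddCircle L)) x) ∂(nu L) := lintegral_congr c2
  rw [g2]
  refine Eq.trans g1 ?_
  have hcoe : Continuous ((↑) : ℝ → AddCircle L) := continuous_coe
  have hval : Continuous fun p : AddCircle L × Ioo (0:ℝ) L => ((p.2 : ℝ) : AddCircle L) := by
    fun_prop
  have m1 : Measurable fun p : AddCircle L × Ioo (0:ℝ) L => ENNReal.ofReal (rho h p.1 p.2) := by
    have : Measurable fun p : AddCircle L × Ioo (0:ℝ) L => (p.1, (p.2 : ℝ)) :=
      (show Continuous fun p : AddCircle L × Ioo (0:ℝ) L => (p.1, (p.2 : ℝ)) by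
        fun_prop).measurable
    exact ((measurable_rho h).comp this).ennreal_ofReal
  have m2 : Measurable fun p : AddCircle L × Ioo (0:ℝ) L =>
      I (p.1 + ((p.2 : ℝ) : AddCircle L), Qmap h p.1 p.2) := by
    apply hI.comp
    exact (Continuous.prodMk (continuous_fst.add hval) (continuous_Qmap h)).measurable
  have hsub : Measurable fun p : AddCircle L × Ioo (0:ℝ) L =>
      (p.1 - ((p.2 : ℝ) : AddCircle L), p.2) :=
    (Continuous.prodMk (continuous_fst.sub hval) continuous_snd).measurable
  have key := lintegral_lintegral_trans (nu L) (fun x => ((x : ℝ) : AddCircle L))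
    (fun w x => ENNReal.ofReal (rho h (w - ((x : ℝ) : AddCircle L)) x) *
          I (w, Qmap h (w - ((x : ℝ) : AddCircle L)) x))
    (by
      have h5 := (m1.mul m2).comp hsub
      convert h5 using 1
      funext ⟨w, x⟩
      simp only [Function.comp, Function.uncurry, sub_add_cancel, Pi.mul_apply])
    (by
      convert m1.mul m2 using 1
      funext ⟨w, x⟩
      simp only [Function.uncurry, add_sub_cancel_right, Pi.mul_apply])
  rw [← key]
  apply lintegral_congr
  intro w
  apply lintegral_congr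
  intro x
  simp only [add_sub_cancel_right]

lemma measurePreserving_tmap (h : StrictlyConvexCurve γ L) (d : ℝ) :
    MeasurePreserving (tmap h d) (mu L) (mu L) :=
  (measurePreserving_cylinderMap d).comp (measurePreserving_bmap h)

/-- there are no wandering open sets -/
lemma recurrent (h : StrictlyConvexCurve γ L) (d : ℝ) (V : Set (PhaseCylinder L)) (hV : IsOpen V)
    (hne : V.Nonempty) : ∃ z ∈ V, ∃ n, n ≠ 0 ∧ (tmap h d)^[n] z ∈ V := by
  have hc := (measurePreserving_tmap h d).conservative
  exact hc.exists_mem_iterate_mem hV.measurableSet.nullMeasurableSet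
    (hV.measure_pos (mu L) hne).ne'

end Pool.Agent.W714.Coin
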