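import Pool.Agent.W714.Coin.Meas

set_option autoImplicit false

/-!
# Integrability gives short chords with equal angles from each point
-/

namespace Pool.Agent.W714.Coin

open Pool.Agent.H738R2.Cyl Complex Set Topology Filter

variable {γ : ℝ → ℂ} {L : ℝ}

/-- a foliation by closed curves contains curves near the lower boundary component -/
lemma exists_low_leaf (hL : 0 < L) (T : PhaseCylinder L → PhaseCylinder L)
    (F : Set (Set (PhaseCylinder L)))
    (hpart : ∀ z, ∃! Γ, Γ ∈ F ∧ z ∈ Γ)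
    (hric : ∀ Γ ∈ F, IsRotationalInvariantCurve T Γ)
    (htube : ∀ Γ ∈ F, ∃ φ : AddCircle (1 : ℝ) × ℝ → PhaseCylinder L, IsOpenEmbedding φ ∧
      (range fun u => φ (u, 0)) = Γ ∧ ∀ t, (range fun u => φ (u, t)) ∈ F) {η : ℝ} (hη : 0 < η) :
    ∃ Γ ∈ F, ∀ z ∈ Γ, ((z.2 : ℝ)) < η := by
  have : Fact (0 < L) := ⟨hL⟩
  have : Fact (0 < (1:ℝ)) := ⟨one_pos⟩
  have hpi := Real.pi_pos
  set η' : ℝ := min η (Real.pi / 2) with hη'
  have h0 : 0 < η' := lt_min hη (by linarith)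
  have h1 : η' < Real.pi := (min_le_right _ _).trans_lt (by linarith)
  set a : Ioo (0:ℝ) Real.pi := ⟨η', h0, h1⟩ with ha
  set C : Set (PhaseCylinder L) := univ ×ˢ {a} with hC
  have hCc : IsCompact C := isCompact_univ.prod isCompact_singleton
  have hmemC : ∀ z : PhaseCylinder L, z ∈ C ↔ (z.2 : ℝ) = η' := by
    intro z
    rw [hC, mem_prod]
    simp only [mem_univ, true_and, mem_singleton_iff, ha]
    exact Subtype.ext_iff
  -- tubes
  have ht : ∀ z : PhaseCylinder L, ∃ φ : AddCircle (1 : ℝ) × ℝ → PhaseCylinder L,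
      IsOpenEmbedding φ ∧ (∀ t, (range fun u => φ (u, t)) ∈ F) ∧ ∃ u, φ (u, 0) = z := by
    intro z
    obtain ⟨Γ, ⟨hΓ, hz⟩, -⟩ := hpart z
    obtain ⟨φ, h1, h2, h3⟩ := htube Γ hΓ
    rw [← h2] at hz
    exact ⟨φ, h1, h3, hz⟩
  choose φ hφo hφF hφz using ht
  obtain ⟨S, -, hS⟩ := hCc.elim_nhds_subcover (fun z => φ z '' (univ ×ˢ Ioo (-1) 1)) (by
    intro z _
    obtain ⟨u, hu⟩ := hφz z
    have h2 := (hφo z).isOpenMap.image_mem_nhds (x := (u, (0:ℝ)))
      (s := univ ×ˢ Ioo (-1:ℝ) 1) ((isOpen_univ.prod isOpen_Ioo).mem_nhds (by simp))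
    rw [hu] at h2
    exact h2)
  -- the compact saturated set
  set Q : Set (PhaseCylinder L) := ⋃ z ∈ S, φ z '' (univ ×ˢ Icc (-1:ℝ) 1) with hQ
  have hQc : IsCompact Q := S.isCompact_biUnion fun z _ =>
    (isCompact_univ.prod isCompact_Icc).image (hφo z).continuous
  have hCQ : C ⊆ Q := by
    intro z hz
    have := hS hz
    simp only [mem_iUnion] at this ⊢
    obtain ⟨w, hw, p, hp, hpz⟩ := this
    simp only [hQ, mem_iUnion]
    exact ⟨w, hw, p, ⟨hp.1, Ioo_subset_Icc_self hp.2⟩, hpz⟩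
  have hQne : Q.Nonempty := ⟨((0 : AddCircle L), a), hCQ (by rw [hmemC])⟩
  obtain ⟨z₀, hz₀, hmin⟩ := hQc.exists_isMinOn hQne
    (f := fun z : PhaseCylinder L => (z.2 : ℝ)) (by fun_prop)
  -- a low point
  have hz₀pos := z₀.2.2.1
  have hz₀le : (z₀.2 : ℝ) ≤ η' := by
    exact hmin (hCQ (show ((0 : AddCircle L), a) ∈ C by rw [hmemC]))
  set b : Ioo (0:ℝ) Real.pi := ⟨(z₀.2 : ℝ) / 2, by linarith, by linarith⟩ with hb
  obtain ⟨Γ, ⟨hΓ, hz⟩, hΓu⟩ := hpart ((0 : AddCircle L), b)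
  refine ⟨Γ, hΓ, ?_⟩
  have hdisj : ∀ w ∈ Γ, (w.2 : ℝ) ≠ η' := by
    intro w hw hwe
    have hwC : w ∈ C := (hmemC w).mpr hwe
    have := hS hwC
    simp only [mem_iUnion] at this
    obtain ⟨v, hv, p, hp, hpw⟩ := this
    -- the leaf of w
    have h2 : (range fun u => φ v (u, p.2)) = Γ := by
      refine (hpart w).unique ⟨hφF v p.2, ⟨p.1, ?_⟩⟩ ⟨hΓ, hw⟩
      exact hpw
    rw [← h2] at hz
    obtain ⟨u, hu⟩ := hz
    have h3 : ((0 : AddCircle L), b) ∈ Q := by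
      simp only [hQ, mem_iUnion]
      exact ⟨v, hv, (u, p.2), ⟨trivial, Ioo_subset_Icc_self hp.2⟩, hu⟩
    have h4 := hmin h3
    simp only [mem_ofPred_eq, hb] at h4
    linarith
  -- connectedness
  obtain ⟨c, -, -, hcΓ, -⟩ := hric Γ hΓ
  have hconn : IsPreconnected Γ := by
    have h2 : Γ = range fun x : ℝ => c (x : AddCircle (1:ℝ)) := by
      rw [← hcΓ]
      ext z
      constructor
      · rintro ⟨u, rfl⟩
        obtain ⟨x, rfl⟩ := coe_surjL u
        exact ⟨x, rfl⟩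
      · rintro ⟨x, rfl⟩
        exact ⟨_, rfl⟩
    rw [h2]
    have : Continuous ((↑) : ℝ → AddCircle (1:ℝ)) := continuous_coe
    exact isPreconnected_range (by fun_prop)
  intro z hzΓ
  by_contra hcon
  push Not at hcon
  have h5 : η' ≤ (z.2 : ℝ) := (min_le_left _ _).trans hcon
  have h6 : (0:ℝ) < z₀.2 := z₀.2.2.1
  obtain ⟨w, hw, hwe⟩ := hconn.intermediate_value hz hzΓ
    (f := fun z : PhaseCylinder L => (z.2 : ℝ)) (by fun_prop)
    (show η' ∈ Icc ((fun z : PhaseCylinder L => (z.2 : ℝ)) ((0 : AddCircle L), b))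
      ((fun z : PhaseCylinder L => (z.2 : ℝ)) z) by
      constructor
      · change (z₀.2 : ℝ) / 2 ≤ η'
        linarith
      · exact h5)
  exact hdisj w hw hwe

/-- an essential closed curve meets each vertical line -/
lemma exists_mem_fst (hL : 0 < L) {T : PhaseCylinder L → PhaseCylinder L}
    {Γ : Set (PhaseCylinder L)} (hΓ : IsRotationalInvariantCurve T Γ) (w : AddCircle L) :
    ∃ z ∈ Γ, z.1 = w := by
  obtain ⟨c, -, hn, hr, -⟩ := hΓ
  have : ContractibleSpace (Ioo (0:ℝ) Real.pi) :=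
    (convex_Ioo _ _).contractibleSpace (nonempty_Ioo.mpr Real.pi_pos)
  obtain ⟨σ, κ, hσ, hκ, h1, h2⟩ := Pool.Agent.H738R2.lift_closed_curve c hn
  obtain ⟨s, rfl⟩ := coe_surjL w
  -- σ is unbounded in both directions
  have h3 : ∃ x, σ x ≤ s := by
    rcases lt_or_gt_of_ne hκ with h | h
    · obtain ⟨n, hn⟩ := exists_nat_gt ((σ 0 - s) / (-κ))
      refine ⟨0 + (n : ℤ), ?_⟩
      rw [add_int_of_add_one σ κ h1]
      rw [div_lt_iff₀ (by linarith)] at hn
      push_cast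
      linarith
    · obtain ⟨n, hn⟩ := exists_nat_gt ((σ 0 - s) / κ)
      refine ⟨0 + (-(n : ℤ) : ℤ), ?_⟩
      rw [add_int_of_add_one σ κ h1]
      rw [div_lt_iff₀ (by linarith)] at hn
      push_cast
      linarith
  have h4 : ∃ x, s ≤ σ x := by
    rcases lt_or_gt_of_ne hκ with h | h
    · obtain ⟨n, hn⟩ := exists_nat_gt ((s - σ 0) / (-κ))
      refine ⟨0 + (-(n : ℤ) : ℤ), ?_⟩
      rw [add_int_of_add_one σ κ h1]
      rw [div_lt_iff₀ (by linarith)] at hn
      push_cast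
      linarith
    · obtain ⟨n, hn⟩ := exists_nat_gt ((s - σ 0) / κ)
      refine ⟨0 + (n : ℤ), ?_⟩
      rw [add_int_of_add_one σ κ h1]
      rw [div_lt_iff₀ (by linarith)] at hn
      push_cast
      linarith
  obtain ⟨x, hx⟩ := mem_range_of_exists_le_of_exists_ge hσ h3 h4
  refine ⟨c (x : AddCircle (1:ℝ)), ?_, ?_⟩
  · rw [← hr]; exact ⟨_, rfl⟩
  · rw [← h2, hx]

/-- integrability gives curves of fixed points for all large numbers of turns -/
lemma exists_fixed (h : StrictlyConvexCurve γ L) {d : ℝ} (hd : 0 < d)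
    (hI : IsIntegrable (tmap h d)) :
    ∃ K₀ : ℕ, ∀ K : ℕ, K₀ ≤ K → ∀ w : AddCircle L, ∃ z : PhaseCylinder L, z.1 = w ∧
      tmap h d z = z ∧ disp h d z = K * L := by
  obtain ⟨F, hpart, hric, htube⟩ := hI
  have hL := h.length_pos
  have : Fact (0 < L) := ⟨hL⟩
  have : Fact (0 < (1:ℝ)) := ⟨one_pos⟩
  have : ContractibleSpace (Ioo (0:ℝ) Real.pi) :=
    (convex_Ioo _ _).contractibleSpace (nonempty_Ioo.mpr Real.pi_pos)
  -- a curve with bounded displacement
  obtain ⟨Γ₀, ⟨hΓ₀, -⟩, -⟩ := hpart ((0 : AddCircle L), ⟨Real.pi / 2, by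
    constructor <;> linarith [Real.pi_pos]⟩)
  have hbdd : ∃ M, ∀ z ∈ Γ₀, disp h d z < M := by
    obtain ⟨c, -, -, hcr, -⟩ := hric Γ₀ hΓ₀
    have hcomp : IsCompact Γ₀ := by
      rw [← hcr]; exact isCompact_range c.continuous
    obtain ⟨M, hM⟩ := hcomp.bddAbove_image (continuous_disp h d).continuousOn
    exact ⟨M + 1, fun z hz => by linarith [hM ⟨z, hz, rfl⟩]⟩
  obtain ⟨M, hM⟩ := hbdd
  obtain ⟨K₀, hK₀⟩ := exists_nat_gt (M / L)
  rw [div_lt_iff₀ hL] at hK₀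
  refine ⟨K₀, fun K hK w => ?_⟩
  have hKK : (K₀ : ℝ) * L ≤ K * L := by
    apply mul_le_mul_of_nonneg_right _ hL.le
    exact_mod_cast hK
  obtain ⟨η, hη, hlarge⟩ := exists_disp_large h hd (K * L)
  obtain ⟨Γ₁, hΓ₁, hlow⟩ := exists_low_leaf hL _ F hpart hric htube hη
  obtain ⟨Γ, hΓ, hfix⟩ := exists_fixed_leaf (K := (K : ℤ)) hL (continuous_tmap h d)
    (tmap_injective h d) (fun a : Ioo (0:ℝ) Real.pi => (a : ℝ)) continuous_subtype_val
    Subtype.val_injective (continuous_disp h d) (tmap_fst h d) (recurrent h d) F hpart hric htube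
    ⟨Γ₁, hΓ₁, fun z hz => by exact_mod_cast hlarge z (hlow z hz)⟩
    ⟨Γ₀, hΓ₀, fun z hz => by
      have := hM z hz
      push_cast
      linarith⟩
  obtain ⟨z, hz, hzw⟩ := exists_mem_fst hL (hric Γ hΓ) w
  obtain ⟨h1, h2⟩ := hfix z hz
  exact ⟨z, hzw, h1, by exact_mod_cast h2⟩

/-- cotangent is bounded away from 0 -/
lemma cot_bound {η : ℝ} (hη : 0 < η) : ∃ M, ∀ x ∈ Ioo 0 Real.pi, η ≤ x → Real.cot x ≤ M := by
  refine ⟨1 / Real.sin η ⊔ 1 / Real.sin (min η (Real.pi / 2)), fun x hx hηx => ?_⟩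
  have hpi := Real.pi_pos
  have hm0 : 0 < min η (Real.pi / 2) := lt_min hη (by linarith)
  have hs : 0 < Real.sin (min η (Real.pi / 2)) :=
    Real.sin_pos_of_pos_of_lt_pi hm0 ((min_le_right _ _).trans_lt (by linarith))
  refine le_trans ?_ (le_max_right _ _)
  rw [Real.cot_eq_cos_div_sin]
  have hsx := Real.sin_pos_of_pos_of_lt_pi hx.1 hx.2
  rcases le_or_gt x (Real.pi / 2) with hx2 | hx2
  · rw [div_le_div_iff₀ hsx hs, one_mul]
    have h1 : Real.sin (min η (Real.pi / 2)) ≤ Real.sin x := by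
      apply Real.sin_le_sin_of_le_of_le_pi_div_two _ hx2 ((min_le_left _ _).trans hηx)
      linarith
    calc Real.cos x * Real.sin (min η (Real.pi / 2)) ≤ 1 * Real.sin (min η (Real.pi / 2)) :=
          mul_le_mul_of_nonneg_right (Real.cos_le_one x) hs.le
      _ ≤ Real.sin x := by rw [one_mul]; exact h1
  · have h2 : Real.cos x ≤ 0 := Real.cos_nonpos_of_pi_div_two_le_of_le hx2.le (by linarith [hx.2])
    have h3 : Real.cos x / Real.sin x ≤ 0 := div_nonpos_of_nonpos_of_nonneg h2 hsx.le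
    have h4 : 0 < 1 / Real.sin (min η (Real.pi / 2)) := by positivity
    linarith

/-- integrability gives, from each point of the curve, arbitrarily short chords which make equal
angles with the curve at their two ends -/
lemma exists_short_chord (h : StrictlyConvexCurve γ L) {d : ℝ} (hd : 0 < d)
    (hI : IsIntegrable (tmap h d)) (w : AddCircle L) {ε : ℝ} (hε : 0 < ε) :
    ∃ x ∈ Ioo 0 L, x < ε ∧ angA h w x = angB h w x := by
  have hL := h.length_pos
  obtain ⟨K₀, hK₀⟩ := exists_fixed h hd hI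
  obtain ⟨η, hη, hsmall⟩ := exists_small h hε
  obtain ⟨M, hM⟩ := cot_bound hη
  obtain ⟨N, hN⟩ := exists_nat_gt ((d * M + L) / L)
  rw [div_lt_iff₀ hL] at hN
  obtain ⟨z, hzw, hfix, hdisp⟩ := hK₀ (max K₀ N) (le_max_left _ _) w
  have hb : (bmap h z).2 = z.2 := by rw [← tmap_snd h d, hfix]
  have hNK : (N : ℝ) * L ≤ ((max K₀ N : ℕ) : ℝ) * L := by
    apply mul_le_mul_of_nonneg_right _ hL.le
    exact_mod_cast le_max_right _ _
  have hlt : (z.2 : ℝ) < η := by
    by_contra hcon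
    push Not at hcon
    have h1 := hM _ z.2.2 hcon
    rw [disp, hb] at hdisp
    have h2 := (len_mem h z).2
    have h3 : d * Real.cot (z.2 : ℝ) ≤ d * M := mul_le_mul_of_nonneg_left h1 hd.le
    linarith
  refine ⟨len h z, len_mem h z, (hsmall z hlt).2, ?_⟩
  have h1 := angA_len h z
  have h2 : angB h z.1 (len h z) = z.2 := congrArg Subtype.val hb
  rw [hzw] at h1 h2
  rw [h1, h2]

end Pool.Agent.W714.Coin
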