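import Pool.Agent.W714.Coin.Near

set_option autoImplicit false

/-!
# Short chords with equal angles force constant curvature
-/

namespace Pool.Agent.W714.Coin

open Pool.Agent.H738R2.Cyl Complex Set Topology Filter

variable {γ : ℝ → ℂ} {L : ℝ}

lemma hasDerivAt_conj {g : ℝ → ℂ} {g' : ℂ} {x : ℝ} (hg : HasDerivAt g g' x) :
    HasDerivAt (fun x => (starRingEnd ℂ) (g x)) ((starRingEnd ℂ) g') x := by
  have := (Complex.conjCLE.toContinuousLinearMap.hasFDerivAt (x := g x)).comp_hasDerivAt x hg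
  simpa [Function.comp_def] using this

lemma hasDerivAt_im {g : ℝ → ℂ} {g' : ℂ} {x : ℝ} (hg : HasDerivAt g g' x) :
    HasDerivAt (fun x => (g x).im) g'.im x := by
  have := (Complex.imCLM.hasFDerivAt (x := g x)).comp_hasDerivAt x hg
  simpa [Function.comp_def] using this

lemma hasDerivAt_re {g : ℝ → ℂ} {g' : ℂ} {x : ℝ} (hg : HasDerivAt g g' x) :
    HasDerivAt (fun x => (g x).re) g'.re x := by
  have := (Complex.reCLM.hasFDerivAt (x := g x)).comp_hasDerivAt x hg
  simpa [Function.comp_def] using this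

lemma rolle3 (f f1 f2 f3 : ℝ → ℝ) (h1 : ∀ x, HasDerivAt f (f1 x) x)
    (h2 : ∀ x, HasDerivAt f1 (f2 x) x) (h3 : ∀ x, HasDerivAt f2 (f3 x) x) (hc : Continuous f3)
    (e0 : f 0 = 0) (e1 : f1 0 = 0) (e2 : f2 0 = 0)
    (hz : ∀ ε > 0, ∃ x, 0 < x ∧ x < ε ∧ f x = 0) : f3 0 = 0 := by
  have rolle : ∀ (g g' : ℝ → ℝ), (∀ x, HasDerivAt g (g' x) x) → g 0 = 0 →
      (∀ ε > 0, ∃ x, 0 < x ∧ x < ε ∧ g x = 0) → ∀ ε > 0, ∃ x, 0 < x ∧ x < ε ∧ g' x = 0 := by
    intro g g' hg hg0 hgz ε hε
    obtain ⟨x, hx, hxε, hgx⟩ := hgz ε hε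
    obtain ⟨y, hy, hy'⟩ := exists_hasDerivAt_eq_zero hx
      (fun t _ => (hg t).continuousAt.continuousWithinAt) (hg0.trans hgx.symm)
      (fun t _ => hg t)
    exact ⟨y, hy.1, hy.2.trans hxε, hy'⟩
  have hz3 := rolle f2 f3 h3 e2 (rolle f1 f2 h2 e1 (rolle f f1 h1 e0 hz))
  by_contra hne
  have h4 : ∀ᶠ x in 𝓝 (0:ℝ), f3 x ≠ 0 := hc.continuousAt.eventually_ne hne
  rw [Metric.eventually_nhds_iff] at h4
  obtain ⟨ε, hε, h5⟩ := h4
  obtain ⟨x, hx, hxε, hfx⟩ := hz3 ε hε
  exact h5 (by rw [Real.dist_eq, sub_zero, abs_of_pos hx]; exact hxε) hfx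

/-- the higher derivatives of the curve -/
lemma contDiff_deriv {g : ℝ → ℂ} (hg : ContDiff ℝ (⊤ : ℕ∞) g) :
    ContDiff ℝ (⊤ : ℕ∞) (deriv g) := by
  have h1 : ContDiff ℝ ((⊤ : ℕ∞) + 1) g := by simpa using hg
  exact (contDiff_succ_iff_deriv.mp h1).2.2

lemma hasDerivAt_of_smooth {g : ℝ → ℂ} (hg : ContDiff ℝ (⊤ : ℕ∞) g) (s : ℝ) :
    HasDerivAt g (deriv g s) s := ((hg.differentiable (by simp)) s).hasDerivAt

lemma re_conj_deriv (h : StrictlyConvexCurve γ L) (s : ℝ) :
    ((starRingEnd ℂ) (deriv γ s) * deriv (deriv γ) s).re = 0 := by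
  have h1 := hasDerivAt_of_smooth (contDiff_deriv h.smooth) s
  have h2 := hasDerivAt_re ((hasDerivAt_conj h1).mul h1)
  have h3 : (fun x => ((starRingEnd ℂ) (deriv γ x) * deriv γ x).re) = fun _ => (1:ℝ) := by
    funext x
    rw [conj_deriv_mul h]
    simp
  have h4 : HasDerivAt (fun x => ((starRingEnd ℂ) (deriv γ x) * deriv γ x).re) 0 s := by
    rw [h3]; exact hasDerivAt_const _ _
  have h5 := h2.unique h4
  simp only [add_re, mul_re, conj_re, conj_im] at h5 ⊢
  linarith

/-- the derivative of the curvature vanishes at the start of a sequence of short chords with equal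
angles -/
lemma third_deriv (h : StrictlyConvexCurve γ L) (s : ℝ)
    (hch : ∀ ε > 0, ∃ x ∈ Ioo 0 L, x < ε ∧ angA h (s : AddCircle L) x = angB h s x) :
    ((starRingEnd ℂ) (deriv γ s) * deriv (deriv (deriv γ)) s).im = 0 := by
  have s1 := contDiff_deriv h.smooth
  have s2 := contDiff_deriv s1
  have s3 := contDiff_deriv s2
  set a : ℝ → ℂ := deriv γ with ha
  set b : ℝ → ℂ := deriv a with hb
  set c : ℝ → ℂ := deriv b with hc
  set e : ℝ → ℂ := deriv c with he
  have dγ : ∀ x : ℝ, HasDerivAt (fun x => γ (s + x)) (a (s + x)) x := fun x =>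
    (hasDerivAt_of_smooth h.smooth (s + x)).comp_const_add s x
  have da : ∀ x : ℝ, HasDerivAt (fun x => a (s + x)) (b (s + x)) x := fun x =>
    (hasDerivAt_of_smooth s1 (s + x)).comp_const_add s x
  have db : ∀ x : ℝ, HasDerivAt (fun x => b (s + x)) (c (s + x)) x := fun x =>
    (hasDerivAt_of_smooth s2 (s + x)).comp_const_add s x
  have dc : ∀ x : ℝ, HasDerivAt (fun x => c (s + x)) (e (s + x)) x := fun x =>
    (hasDerivAt_of_smooth s3 (s + x)).comp_const_add s x
  set σ := starRingEnd ℂ with hσ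
  have haa : ∀ t, σ (a t) * a t = 1 := fun t => conj_deriv_mul h t
  set f : ℝ → ℝ := fun x => ((σ (a s) + σ (a (s + x))) * (γ (s + x) - γ s)).im with hf
  set f1 : ℝ → ℝ := fun x => (σ (b (s + x)) * (γ (s + x) - γ s) + σ (a s) * a (s + x)).im with hf1
  set f2 : ℝ → ℝ := fun x => ((σ (c (s + x)) * (γ (s + x) - γ s) + σ (b (s + x)) * a (s + x))
    + σ (a s) * b (s + x)).im with hf2
  set f3 : ℝ → ℝ := fun x => (((σ (e (s + x)) * (γ (s + x) - γ s) + σ (c (s + x)) * a (s + x))
    + (σ (c (s + x)) * a (s + x) + σ (b (s + x)) * b (s + x))) + σ (a s) * c (s + x)).im with hf3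
  have k1 : ∀ x, HasDerivAt f (f1 x) x := by
    intro x
    have := hasDerivAt_im (((hasDerivAt_conj (da x)).const_add (σ (a s))).mul
      ((dγ x).sub_const (γ s)))
    refine this.congr_deriv ?_
    rw [hf1]
    simp only
    rw [add_mul (σ (a s)), haa]
    simp only [hσ, add_im, one_im, add_zero]
  have k2 : ∀ x, HasDerivAt f1 (f2 x) x := by
    intro x
    have := hasDerivAt_im (((hasDerivAt_conj (db x)).mul ((dγ x).sub_const (γ s))).add
      ((da x).const_mul (σ (a s))))
    exact this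
  have k3 : ∀ x, HasDerivAt f2 (f3 x) x := by
    intro x
    have := hasDerivAt_im ((((hasDerivAt_conj (dc x)).mul ((dγ x).sub_const (γ s))).add
      ((hasDerivAt_conj (db x)).mul (da x))).add ((db x).const_mul (σ (a s))))
    exact this
  have c0 := h.smooth.continuous
  have c1 : Continuous a := s1.continuous
  have c2 : Continuous b := s2.continuous
  have c3 : Continuous c := s3.continuous
  have c4 : Continuous e := (contDiff_deriv s3).continuous
  have kc : Continuous f3 := by
    apply Complex.continuous_im.comp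
    have : Continuous σ := Complex.continuous_conj
    fun_prop
  have e0 : f 0 = 0 := by simp [hf]
  have e1 : f1 0 = 0 := by
    simp only [hf1, add_zero, sub_self, mul_zero, zero_add, haa]
    simp
  have e2 : f2 0 = 0 := by
    simp only [hf2, add_zero, sub_self, mul_zero, zero_add]
    simp only [hσ, add_im, mul_im, conj_re, conj_im]
    ring
  have hz : ∀ ε > 0, ∃ x, 0 < x ∧ x < ε ∧ f x = 0 := by
    intro ε hε
    obtain ⟨x, hx, hxε, hang⟩ := hch ε hε
    refine ⟨x, hx.1, hxε, ?_⟩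
    -- the two complex numbers have the same modulus and argument
    have : Fact (0 < L) := ⟨h.length_pos⟩
    have hZ : ZA h (s : AddCircle L) x = ZB h s x := by
      apply Complex.ext_norm_arg
      · rw [norm_ZA, norm_ZB]
      · exact hang
    rw [ZA_coe, ZB_coe] at hZ
    have h1 := congrArg Complex.im hZ
    change ((σ (a s) + σ (a (s + x))) * (γ (s + x) - γ s)).im = 0
    change (σ (a s) * (γ (s + x) - γ s)).im = (σ (γ (s + x) - γ s) * a (s + x)).im at h1
    rw [add_mul, add_im, h1]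
    simp only [hσ, mul_im, conj_re, conj_im]
    ring
  have := rolle3 f f1 f2 f3 k1 k2 k3 kc e0 e1 e2 hz
  simp only [hf3, add_zero, sub_self, mul_zero, zero_add] at this
  simp only [hσ, add_im, mul_im, conj_re, conj_im] at this ⊢
  linarith

/-- constant curvature gives a circle -/
lemma circle_of_third (h : StrictlyConvexCurve γ L)
    (h3 : ∀ s, ((starRingEnd ℂ) (deriv γ s) * deriv (deriv (deriv γ)) s).im = 0) :
    ∃ (c : ℂ) (r : ℝ), range γ = Metric.sphere c r := by
  have s1 := contDiff_deriv h.smooth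
  have s2 := contDiff_deriv s1
  have hL := h.length_pos
  set a : ℝ → ℂ := deriv γ with ha
  set b : ℝ → ℂ := deriv a with hb
  set σ := starRingEnd ℂ with hσ
  have haa : ∀ t, σ (a t) * a t = 1 := fun t => conj_deriv_mul h t
  have hab : ∀ t, (σ (a t) * b t).re = 0 := fun t => re_conj_deriv h t
  -- the curvature
  set k : ℝ → ℝ := fun s => (σ (a s) * b s).im with hk
  have hkd : ∀ s, HasDerivAt k 0 s := by
    intro s
    have h1 := hasDerivAt_im ((hasDerivAt_conj (hasDerivAt_of_smooth s1 s)).mul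
      (hasDerivAt_of_smooth s2 s))
    refine h1.congr_deriv ?_
    rw [add_im]
    have h2 := h3 s
    change (σ (b s) * b s).im + (σ (a s) * deriv b s).im = 0
    rw [h2]
    simp only [hσ, mul_im, conj_re, conj_im]
    ring
  have hkc : ∀ s, k s = k 0 := fun s =>
    is_const_of_deriv_eq_zero (fun x => (hkd x).differentiableAt) (fun x => (hkd x).deriv) s 0
  set κ := k 0 with hκ
  have hb' : ∀ s, b s = (κ * I) * a s := by
    intro s
    have h1 : σ (a s) * b s = κ * I := by
      apply Complex.ext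
      · rw [hab]; simp
      · have := hkc s
        simp only [hk] at this
        rw [this]; simp
    calc b s = (σ (a s) * a s) * b s := by rw [haa, one_mul]
      _ = (σ (a s) * b s) * a s := by ring
      _ = _ := by rw [h1]
  have da : ∀ s, HasDerivAt a (b s) s := fun s => hasDerivAt_of_smooth s1 s
  have dγ : ∀ s, HasDerivAt γ (a s) s := fun s => hasDerivAt_of_smooth h.smooth s
  -- the tangent
  have hexp : ∀ s, a s = exp (κ * I * s) * a 0 := by
    intro s
    have hE : ∀ t : ℝ, HasDerivAt (fun t : ℝ => exp (-(κ * I * t)))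
        (exp (-(κ * I * t)) * (-(κ * I))) t := by
      intro t
      have h1 : HasDerivAt (fun t : ℝ => -(κ * I * (t:ℂ))) (-(κ * I * 1)) t :=
        ((Complex.ofRealCLM.hasDerivAt (x := t)).const_mul (κ * I)).neg
      rw [mul_one] at h1
      exact h1.cexp
    have h1 : ∀ t : ℝ, HasDerivAt (fun t : ℝ => exp (-(κ * I * t)) * a t) 0 t := by
      intro t
      refine ((hE t).mul (da t)).congr_deriv ?_
      rw [hb']; ring
    have h2 : exp (-(κ * I * s)) * a s = exp (-(κ * I * (0:ℝ))) * a 0 :=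
      is_const_of_deriv_eq_zero (fun x => (h1 x).differentiableAt) (fun x => (h1 x).deriv) s 0
    rw [ofReal_zero, mul_zero, neg_zero, Complex.exp_zero, one_mul] at h2
    rw [← h2, ← mul_assoc, ← Complex.exp_add]
    simp
  have hκ0 : κ ≠ 0 := by
    intro h0
    have h1 : ∀ s, a s = a 0 := by
      intro s; rw [hexp s, h0]; simp
    have h2 : ∀ s : ℝ, HasDerivAt (fun t : ℝ => γ t - t * a 0) 0 s := by
      intro s
      have h3 : HasDerivAt (fun t : ℝ => (t : ℂ) * a 0) (1 * a 0) s :=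
        (HasDerivAt.mul_const (Complex.ofRealCLM.hasDerivAt (x := s)) _)
      refine ((dγ s).sub h3).congr_deriv ?_
      rw [h1 s]; ring
    have h4 : γ L - L * a 0 = γ 0 - (0:ℝ) * a 0 :=
      is_const_of_deriv_eq_zero (fun x => (h2 x).differentiableAt) (fun x => (h2 x).deriv) L 0
    have h5 : γ L = γ 0 := by have := h.periodic 0; rwa [zero_add] at this
    rw [h5] at h4
    have h6 : (L : ℂ) * a 0 = 0 := by
      simp only [ofReal_zero, zero_mul] at h4
      linear_combination -h4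
    rcases mul_eq_zero.mp h6 with h7 | h7
    · exact hL.ne' (by exact_mod_cast h7)
    · have := haa 0
      rw [h7, mul_zero] at this
      exact zero_ne_one this
  have hκI : (κ : ℂ) * I ≠ 0 := mul_ne_zero (by exact_mod_cast hκ0) I_ne_zero
  -- the centre
  have hcen : ∀ s, γ s = (γ 0 - a 0 / (κ * I)) + a s / (κ * I) := by
    intro s
    have h1 : ∀ t : ℝ, HasDerivAt (fun t : ℝ => γ t - a t / (κ * I)) 0 t := by
      intro t
      refine ((dγ t).sub ((da t).div_const (κ * I))).congr_deriv ?_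
      rw [hb', mul_div_cancel_left₀ _ hκI, sub_self]
    have h2 : γ s - a s / (κ * I) = γ 0 - a 0 / (κ * I) :=
      is_const_of_deriv_eq_zero (fun x => (h1 x).differentiableAt) (fun x => (h1 x).deriv) s 0
    rw [← h2]; ring
  set c := γ 0 - a 0 / (κ * I) with hc
  refine ⟨c, |κ|⁻¹, ?_⟩
  have hna : ∀ s, ‖a s‖ = 1 := h.unit_speed
  have hnκ : ‖(κ : ℂ) * I‖ = |κ| := by simp
  ext z
  rw [mem_sphere_iff_norm]
  constructor
  · rintro ⟨s, rfl⟩
    rw [hcen s, add_sub_cancel_left, norm_div, hna, hnκ, one_div]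
  · intro hz
    -- solve exp (κ I s) a 0 / (κ I) = z - c
    set w := (z - c) * (κ * I) * σ (a 0) with hw
    have hwn : ‖w‖ = 1 := by
      rw [hw, norm_mul, norm_mul, hz, hnκ, hσ, Complex.norm_conj, hna, mul_one]
      exact inv_mul_cancel₀ (abs_pos.mpr hκ0).ne'
    refine ⟨arg w / κ, ?_⟩
    have h1 : exp (κ * I * ((arg w / κ : ℝ) : ℂ)) = w := by
      have h2 : (κ : ℂ) * I * ((arg w / κ : ℝ) : ℂ) = (arg w : ℂ) * I := by
        have : (κ : ℂ) ≠ 0 := by exact_mod_cast hκ0
        push_cast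
        field_simp
      rw [h2]
      have h3 := Complex.norm_mul_exp_arg_mul_I w
      rw [hwn] at h3
      simpa using h3
    rw [hcen, hexp, h1, hw]
    have h4 := haa 0
    have h5 : (z - c) * (κ * I) * σ (a 0) * a 0 / (κ * I) = (z - c) * (σ (a 0) * a 0) := by
      rw [div_eq_iff hκI]; ring
    rw [h5, h4]; ring

end Pool.Agent.W714.Coin
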