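import Pool.Agent.W714.Coin.Rigid

set_option autoImplicit false

/-!
# The converse: for a circle the map is integrable
-/

namespace Pool.Agent.W714.Coin

open Pool.Agent.H738R2.Cyl Complex Set Topology Filter

variable {γ : ℝ → ℂ} {L : ℝ}

/-- for a circle, the chord as seen from the two ends is the same -/
lemma ZA_eq_ZB (h : StrictlyConvexCurve γ L) {c : ℂ} {r : ℝ} (hr : range γ = Metric.sphere c r)
    (w : AddCircle L) (x : ℝ) : ZA h w x = ZB h w x := by
  have hmem : ∀ s, ‖γ s - c‖ = r := by
    intro s
    have : γ s ∈ Metric.sphere c r := by rw [← hr]; exact ⟨s, rfl⟩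
    rwa [mem_sphere_iff_norm] at this
  have hr0 : 0 ≤ r := by rw [← hmem 0]; exact norm_nonneg _
  set σ := starRingEnd ℂ with hσ
  have haa : ∀ t, σ (deriv γ t) * deriv γ t = 1 := fun t => conj_deriv_mul h t
  have hrpos : 0 < r := by
    rcases hr0.eq_or_lt with h0 | h0
    · exfalso
      have h1 : γ = fun _ => c := by
        funext s
        have := hmem s
        rw [← h0, norm_eq_zero] at this
        linear_combination this
      have h2 := h.unit_speed 0
      rw [h1] at h2
      simp at h2
    · exact h0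
  -- the tangent is orthogonal to the radius
  have horth : ∀ s, (σ (deriv γ s) * (γ s - c)).re = 0 := by
    intro s
    have d1 : HasDerivAt (fun t => γ t - c) (deriv γ s) s := (hasDerivAt h s).sub_const c
    have d2 := hasDerivAt_re ((hasDerivAt_conj d1).mul d1)
    have h3 : (fun t => (σ (γ t - c) * (γ t - c)).re) = fun _ => r ^ 2 := by
      funext t
      rw [hσ, mul_comm, Complex.mul_conj, Complex.normSq_eq_norm_sq, hmem]
      norm_cast
    have h4 : HasDerivAt (fun t => (σ (γ t - c) * (γ t - c)).re) 0 s := by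
      rw [h3]; exact hasDerivAt_const _ _
    have h5 := d2.unique h4
    simp only [hσ, add_re, mul_re, conj_re, conj_im] at h5 ⊢
    linarith
  have hrad : ∀ s, γ s - c = -(I * r) * deriv γ s := by
    intro s
    set m := σ (deriv γ s) * (γ s - c) with hm
    have hmn : ‖m‖ = r := by rw [hm, norm_mul, hσ, Complex.norm_conj, h.unit_speed, one_mul, hmem]
    have hmre : m.re = 0 := horth s
    -- the antipodal point
    have hanti : c - (γ s - c) ∈ range γ := by
      rw [hr, mem_sphere_iff_norm, sub_sub_cancel_left, norm_neg]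
      exact hmem s
    obtain ⟨s', hs'⟩ := hanti
    have hne : γ s' ≠ γ s := by
      intro he
      rw [he] at hs'
      have h1 : γ s - c = 0 := by linear_combination (1/2) * hs'
      have := hmem s
      rw [h1, norm_zero] at this
      linarith
    have hpos := h.strictly_convex s s' hne
    have h2 : (starRingEnd ℂ) (deriv γ s) * (γ s' - γ s) = (-2 : ℝ) * m := by
      rw [hs', hm]; push_cast; ring
    rw [h2, Complex.im_ofReal_mul] at hpos
    have hmim : m.im < 0 := by linarith
    have hm' : m = -(I * r) := by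
      apply Complex.ext
      · rw [hmre]; simp
      · have h3 : ‖m‖ = |m.im| := by
          rw [← Complex.re_add_im m, hmre]
          simp
        rw [h3, abs_of_neg hmim] at hmn
        simp
        linarith
    calc γ s - c = (σ (deriv γ s) * deriv γ s) * (γ s - c) := by rw [haa, one_mul]
      _ = m * deriv γ s := by rw [hm]; ring
      _ = _ := by rw [hm']
  obtain ⟨s, rfl⟩ := coe_surjL w
  rw [ZA_coe, ZB_coe]
  have h1 : γ (s + x) - γ s = -(I * r) * (deriv γ (s + x) - deriv γ s) := by
    linear_combination hrad (s + x) - hrad s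
  rw [h1]
  have h2 : σ (-(I * r) * (deriv γ (s + x) - deriv γ s))
      = (I * r) * (σ (deriv γ (s + x)) - σ (deriv γ s)) := by
    simp only [hσ, map_mul, map_sub, map_neg, conj_I, conj_ofReal]
    ring
  change σ (deriv γ s) * _ = σ (_) * _
  rw [h2]
  linear_combination (-(I * r)) * haa (s + x) + I * r * haa s

/-- the standard coordinate on the interval of angles -/
noncomputable def psi : ℝ ≃ₜ Ioo (0:ℝ) Real.pi := by
  refine (StrictMono.orderIsoOfSurjective (fun t : ℝ => (⟨Real.arctan t + Real.pi / 2, ?_⟩ :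
    Ioo (0:ℝ) Real.pi)) ?_ ?_).toHomeomorph
  · constructor <;> linarith [Real.neg_pi_div_two_lt_arctan t, Real.arctan_lt_pi_div_two t]
  · intro s t hst
    have := Real.arctan_strictMono hst
    rw [← Subtype.coe_lt_coe]
    simp only
    linarith
  · rintro ⟨a, ha⟩
    refine ⟨Real.tan (a - Real.pi / 2), ?_⟩
    apply Subtype.ext
    simp only
    rw [Real.arctan_tan (by linarith [ha.1]) (by linarith [ha.2])]
    ring

/-- horizontal circles are not contractible -/
lemma not_nullhomotopic_circle (hL : 0 < L) (a : Ioo (0:ℝ) Real.pi)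
    (c : C(AddCircle (1:ℝ), PhaseCylinder L))
    (hc : ∀ x : ℝ, c (x : AddCircle (1:ℝ)) = (((x * L : ℝ) : AddCircle L), a)) :
    ¬ c.Nullhomotopic := by
  rintro ⟨b, ⟨H⟩⟩
  -- lift of the homotopy
  set g : ℝ × ℝ → AddCircle L := fun p => (H (projIcc 0 1 zero_le_one p.1, (p.2 : AddCircle (1:ℝ)))).1
    with hg
  have hgc : Continuous g := by
    have h1 : Continuous ((↑) : ℝ → AddCircle (1:ℝ)) := continuous_coe
    have h2 : Continuous (projIcc (0:ℝ) 1 zero_le_one) := continuous_projIcc
    fun_prop
  obtain ⟨G, hG, hGg⟩ := exists_real_lift g hgc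
  -- the period
  have hper : ∀ p : ℝ × ℝ, ((G (p.1, p.2 + 1) - G p : ℝ) : AddCircle L) = 0 := by
    intro p
    rw [AddCircle.coe_sub, hGg, hGg, sub_eq_zero]
    simp only [hg]
    have : ((p.2 + 1 : ℝ) : AddCircle (1:ℝ)) = (p.2 : AddCircle (1:ℝ)) := by
      rw [AddCircle.coe_add, AddCircle.coe_period, add_zero]
    rw [this]
  have hconst := const_of_coe_const (fun p : ℝ × ℝ => G (p.1, p.2 + 1) - G p) (by fun_prop) 0 hper
  -- at the end of the homotopy
  have hend : G (1, 0 + 1) - G (1, 0) = 0 := by
    have h1 : ∀ x : ℝ, ((G (1, x) : ℝ) : AddCircle L) = b.1 := by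
      intro x
      rw [hGg]
      simp only [hg]
      have : projIcc (0:ℝ) 1 zero_le_one 1 = 1 := projIcc_right _
      rw [this, H.apply_one]
      rfl
    have := const_of_coe_const (fun x : ℝ => G (1, x)) (by fun_prop) b.1 h1 (0 + 1) 0
    rw [this, sub_self]
  -- at the start
  have hstart : G (0, 0 + 1) - G (0, 0) = L := by
    have h1 : ∀ x : ℝ, ((G (0, x) - x * L : ℝ) : AddCircle L) = 0 := by
      intro x
      rw [AddCircle.coe_sub, hGg]
      simp only [hg]
      have : projIcc (0:ℝ) 1 zero_le_one 0 = 0 := projIcc_left _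
      rw [this, H.apply_zero, hc, sub_self]
    have := const_of_coe_const (fun x : ℝ => G (0, x) - x * L) (by fun_prop) 0 h1 (0 + 1) 0
    linarith
  have := hconst (1, 0) (0, 0)
  simp only at this
  rw [hend, hstart] at this
  exact hL.ne this

/-- for a circle the map is integrable -/
lemma integrable_of_circle (h : StrictlyConvexCurve γ L) (d : ℝ) {c : ℂ} {r : ℝ}
    (hr : range γ = Metric.sphere c r) : IsIntegrable (tmap h d) := by
  have hL := h.length_pos
  have : Fact (0 < L) := ⟨hL⟩
  -- the angle is preserved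
  have hAB : ∀ w x, angA h w x = angB h w x := fun w x => by rw [angA, angB, ZA_eq_ZB h hr]
  have hsnd : ∀ z, (tmap h d z).2 = z.2 := by
    intro z
    rw [tmap_snd]
    apply Subtype.ext
    change angB h z.1 (len h z) = z.2
    rw [← hAB, angA_len]
  set e : AddCircle (1:ℝ) ≃ₜ AddCircle L := AddCircle.homeomorphAddCircle 1 L one_ne_zero hL.ne'
    with he
  have hex : ∀ x : ℝ, e (x : AddCircle (1:ℝ)) = ((x * L : ℝ) : AddCircle L) := by
    intro x
    rw [he, AddCircle.homeomorphAddCircle_apply_mk]
    norm_num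
  have hrange : ∀ a : Ioo (0:ℝ) Real.pi, (range fun u => (e u, a)) = univ ×ˢ {a} := by
    intro a
    ext z
    simp only [mem_range, mem_prod, mem_univ, true_and, mem_singleton_iff]
    constructor
    · rintro ⟨u, rfl⟩; rfl
    · intro hz
      exact ⟨e.symm z.1, by rw [e.apply_symm_apply, ← hz]⟩
  refine ⟨{Γ | ∃ a : Ioo (0:ℝ) Real.pi, Γ = univ ×ˢ {a}}, ?_, ?_, ?_⟩
  · intro z
    refine ⟨univ ×ˢ {z.2}, ⟨⟨z.2, rfl⟩, by simp⟩, ?_⟩
    rintro Γ ⟨⟨a, rfl⟩, hz⟩
    simp only [mem_prod, mem_univ, true_and, mem_singleton_iff] at hz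
    rw [hz]
  · rintro Γ ⟨a, rfl⟩
    refine ⟨⟨fun u => (e u, a), by fun_prop⟩, ?_, ?_, ?_, ?_⟩
    · intro u v huv
      exact e.injective (congrArg Prod.fst huv)
    · apply not_nullhomotopic_circle hL a
      intro x
      change (e (x : AddCircle (1:ℝ)), a) = _
      rw [hex]
    · exact hrange a
    · apply Subset.antisymm
      · rintro _ ⟨z, hz, rfl⟩
        simp only [mem_prod, mem_univ, true_and, mem_singleton_iff] at hz ⊢
        rw [hsnd, hz]
      · intro w hw
        simp only [mem_prod, mem_univ, true_and, mem_singleton_iff] at hw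
        obtain ⟨x, hx, hxa⟩ := exists_angB_eq h
          (w.1 - ((d * Real.cot (a : ℝ) : ℝ) : AddCircle L)) a.2
        set p : AddCircle L := w.1 - ((d * Real.cot (a : ℝ) : ℝ) : AddCircle L)
          - (x : AddCircle L) with hp
        have h1 : angA h p x = a := by rw [hAB, hxa]
        have h2 : len h (p, a) = x := len_eq h hx h1
        have h3 : bmap h (p, a) = (p + ((x : ℝ) : AddCircle L), a) := by
          refine Prod.ext ?_ (Subtype.ext ?_)
          · change p + ((len h (p, a) : ℝ) : AddCircle L) = _
            rw [h2]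
          · change angB h p (len h (p, a)) = a
            rw [h2, ← hAB, h1]
        refine ⟨(p, a), by simp, ?_⟩
        rw [tmap, Function.comp_apply, h3]
        refine Prod.ext ?_ ?_
        · change p + ((x : ℝ) : AddCircle L) + ((d * Real.cot (a : ℝ) : ℝ) : AddCircle L) = w.1
          rw [hp]
          abel
        · exact hw.symm
  · rintro Γ ⟨a, rfl⟩
    refine ⟨(e.prodCongr ((Homeomorph.addRight (psi.symm a)).trans psi)), ?_, ?_, ?_⟩
    · exact Homeomorph.isOpenEmbedding _
    · have h1 : ((Homeomorph.addRight (psi.symm a)).trans psi) 0 = a := by simp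
      change (range fun u => (e u, ((Homeomorph.addRight (psi.symm a)).trans psi) 0)) = _
      rw [h1]
      exact hrange a
    · intro t
      exact ⟨((Homeomorph.addRight (psi.symm a)).trans psi) t, hrange _⟩

end Pool.Agent.W714.Coin
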