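import Pool.Agent.H738R2.Lift
import Pool.Agent.H738R2.Cross

set_option autoImplicit false

/-!
# Lifts of a tube of closed curves on a cylinder
-/

namespace Pool.Agent.W714.Coin

open Set Topology Filter

section Degree

variable {L : ℝ}

/-- an essential simple closed curve on the cylinder winds once around it -/
lemma degree_one (hL : 0 < L) (σ y : ℝ → ℝ) (hσ : Continuous σ) (hy : Continuous y) (κ : ℝ)
    (hκ : κ ≠ 0) (h1 : ∀ x, σ (x + 1) = σ x + κ) (h2 : ∀ x, y (x + 1) = y x)
    (h3 : (κ : AddCircle L) = 0)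
    (hinj : ∀ x x', (σ x : AddCircle L) = (σ x' : AddCircle L) → y x = y x' → ∃ n : ℤ, x' = x + n) :
    κ = L ∨ κ = -L := by
  -- periodicity over integers
  have hσn : ∀ (n : ℤ) x, σ (x + n) = σ x + n * κ := by
    intro n
    induction n using Int.induction_on with
    | zero => intro x; simp
    | succ i ih =>
      intro x
      have := h1 (x + i)
      push_cast
      push_cast at ih
      rw [← add_assoc, this, ih]; ring
    | pred i ih =>
      intro x
      have := h1 (x + (-(i:ℝ) - 1))
      have h3 : x + (-(i:ℝ) - 1) + 1 = x + (-(i:ℝ)) := by ring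
      rw [h3] at this
      push_cast
      push_cast at ih
      rw [ih] at this
      linarith
  -- minimum and maximum of `y`
  obtain ⟨xm, hxm⟩ : ∃ xm, ∀ x, y xm ≤ y x := by
    obtain ⟨xm, -, hm⟩ := isCompact_Icc.exists_isMinOn (s := Icc (0:ℝ) 1) (by simp) hy.continuousOn
    refine ⟨xm, fun x => ?_⟩
    have hp : Function.Periodic y 1 := h2
    obtain ⟨x', hx', he⟩ := hp.exists_mem_Ico₀ one_pos x
    rw [he]
    exact hm ⟨hx'.1, hx'.2.le⟩
  obtain ⟨xM, hxM⟩ : ∃ xM, ∀ x, y x ≤ y xM := by
    obtain ⟨xm, -, hm⟩ := isCompact_Icc.exists_isMaxOn (s := Icc (0:ℝ) 1) (by simp) hy.continuousOn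
    refine ⟨xm, fun x => ?_⟩
    have hp : Function.Periodic y 1 := h2
    obtain ⟨x', hx', he⟩ := hp.exists_mem_Ico₀ one_pos x
    rw [he]
    exact hm ⟨hx'.1, hx'.2.le⟩
  -- the path
  set p : ℝ → ℝ := fun τ => xm + (xM - xm) * max 0 (min 1 (3 * τ - 1)) with hp
  have hpc : Continuous p := by rw [hp]; fun_prop
  set b : ℝ → ℂ := fun τ => ((σ (p τ) + L : ℝ) : ℂ) +
    ((y (p τ) + min (3 * τ - 1) 0 + max (3 * τ - 2) 0 : ℝ) : ℂ) * Complex.I with hb
  have hbc : Continuous b := by
    rw [hb]
    have e1 : Continuous fun τ => σ (p τ) := hσ.comp hpc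
    have e2 : Continuous fun τ => y (p τ) := hy.comp hpc
    fun_prop
  set c : ℝ → ℂ := fun x => (σ x : ℂ) + (y x : ℂ) * Complex.I with hc
  have hcc : Continuous c := by rw [hc]; fun_prop
  have hcre : ∀ x, (c x).re = σ x := by intro x; simp [hc]
  have hcim : ∀ x, (c x).im = y x := by intro x; simp [hc]
  have hbre : ∀ τ, (b τ).re = σ (p τ) + L := by
    intro τ
    simp only [hb, Complex.add_re, Complex.ofReal_re, Complex.mul_re, Complex.I_re, mul_zero,
      Complex.ofReal_im, Complex.I_im, mul_one, sub_self, add_zero]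
  have hbim : ∀ τ, (b τ).im = y (p τ) + min (3 * τ - 1) 0 + max (3 * τ - 2) 0 := by
    intro τ
    simp only [hb, Complex.add_im, Complex.ofReal_im, Complex.mul_im, Complex.I_im, mul_one,
      Complex.ofReal_re, Complex.I_re, mul_zero, add_zero, zero_add]
  obtain ⟨x, τ, hτ, hx⟩ := Pool.Agent.H738R2.crossing c b hcc hbc κ hκ
    (by
      intro x
      simp only [hc]
      rw [h1, h2]
      push_cast; ring)
    (by
      intro x
      rw [hbim, hcim]
      have e1 : p 0 = xm := by simp [hp]
      rw [e1]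
      have := hxm x
      have e2 : min (3 * (0:ℝ) - 1) 0 = -1 := by norm_num
      have e3 : max (3 * (0:ℝ) - 2) 0 = 0 := by norm_num
      rw [e2, e3]; linarith)
    (by
      intro x
      rw [hbim, hcim]
      have e1 : p 1 = xM := by
        simp only [hp]
        have : max (0:ℝ) (min 1 (3 * 1 - 1)) = 1 := by norm_num
        rw [this]; ring
      rw [e1]
      have := hxM x
      have e2 : min (3 * (1:ℝ) - 1) 0 = 0 := by norm_num
      have e3 : max (3 * (1:ℝ) - 2) 0 = 1 := by norm_num
      rw [e2, e3]; linarith)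
  have hre : σ x = σ (p τ) + L := by rw [← hcre, hx, hbre]
  have him : y x = y (p τ) + min (3 * τ - 1) 0 + max (3 * τ - 2) 0 := by rw [← hcim, hx, hbim]
  have him2 : y x = y (p τ) := by
    rcases lt_or_ge τ (1/3) with h | h
    · exfalso
      have e1 : p τ = xm := by
        simp only [hp]
        have : max (0:ℝ) (min 1 (3 * τ - 1)) = 0 := by
          apply max_eq_left
          exact (min_le_right _ _).trans (by linarith)
        rw [this]; ring
      rw [e1, min_eq_left (by linarith), max_eq_right (by linarith)] at him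
      have := hxm x
      linarith
    · rcases le_or_gt τ (2/3) with h' | h'
      · rw [min_eq_right (by linarith), max_eq_right (by linarith)] at him
        linarith
      · exfalso
        have e1 : p τ = xM := by
          simp only [hp]
          have : max (0:ℝ) (min 1 (3 * τ - 1)) = 1 := by
            rw [min_eq_left (by linarith)]; norm_num
          rw [this]; ring
        rw [e1, min_eq_right (by linarith), max_eq_left (by linarith)] at him
        have := hxM x
        linarith
  obtain ⟨n, hn⟩ := hinj (p τ) x (by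
    rw [hre, AddCircle.coe_add_period]) him2.symm
  rw [hn, hσn] at hre
  have hnκ : (n : ℝ) * κ = L := by linarith
  -- κ is a multiple of L
  obtain ⟨m, hm⟩ : ∃ m : ℤ, (m : ℝ) * L = κ := by
    rw [AddCircle.coe_eq_zero_iff] at h3
    obtain ⟨m, hm⟩ := h3
    exact ⟨m, by rw [← hm]; simp⟩
  have : (n : ℝ) * m = 1 := by
    rw [← hm] at hnκ
    have : ((n:ℝ) * m) * L = 1 * L := by linarith
    exact mul_right_cancel₀ hL.ne' this
  have hnm : n * m = 1 := by exact_mod_cast this
  rcases Int.eq_one_or_neg_one_of_mul_eq_one' hnm with ⟨h, h'⟩ | ⟨h, h'⟩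
  · left; rw [← hm, h']; simp
  · right; rw [← hm, h']; simp

end Degree

/-- adding an integer to a lift -/
lemma add_int_of_add_one (f : ℝ → ℝ) (κ : ℝ) (h1 : ∀ x, f (x + 1) = f x + κ) (n : ℤ) (x : ℝ) :
    f (x + n) = f x + n * κ := by
  induction n using Int.induction_on generalizing x with
  | zero => simp
  | succ i ih =>
    have := h1 (x + i)
    push_cast
    push_cast at ih
    rw [← add_assoc, this, ih]; ring
  | pred i ih =>
    have := h1 (x + (-(i:ℝ) - 1))
    have h3 : x + (-(i:ℝ) - 1) + 1 = x + (-(i:ℝ)) := by ring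
    rw [h3] at this
    push_cast
    push_cast at ih
    rw [ih] at this
    linarith

lemma coe_eq_iff {p : ℝ} {x y : ℝ} :
    ((x : ℝ) : AddCircle p) = (y : AddCircle p) ↔ ∃ n : ℤ, y = x + n * p := by
  rw [eq_comm, ← sub_eq_zero, ← AddCircle.coe_sub, AddCircle.coe_eq_zero_iff]
  constructor
  · rintro ⟨n, hn⟩
    exact ⟨n, by rw [zsmul_eq_mul] at hn; linarith⟩
  · rintro ⟨n, hn⟩
    exact ⟨n, by rw [zsmul_eq_mul]; linarith⟩

/-- lifting through `ℝ → AddCircle p` -/
lemma exists_real_lift {p : ℝ} {A : Type*} [TopologicalSpace A] [SimplyConnectedSpace A]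
    [LocallyPathConnectedSpace A] (f : A → AddCircle p) (hf : Continuous f) :
    ∃ F : A → ℝ, Continuous F ∧ ∀ x, ((F x : ℝ) : AddCircle p) = f x := by
  have cov : IsCoveringMap ((↑) : ℝ → AddCircle p) := AddCircle.isCoveringMap_coe p
  obtain ⟨a₀⟩ : Nonempty A := inferInstance
  obtain ⟨e₀, he₀⟩ : ∃ e₀ : ℝ, ((e₀ : ℝ) : AddCircle p) = f a₀ :=
    QuotientAddGroup.mk_surjective (f a₀)
  obtain ⟨F, ⟨-, hF⟩, -⟩ := cov.existsUnique_continuousMap_lifts ⟨f, hf⟩ a₀ e₀ he₀
  exact ⟨F, F.continuous, fun x => congrFun hF x⟩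

/-- a continuous real function with values in `ℤ p` on a connected space is constant -/
lemma const_of_coe_const {p : ℝ} {A : Type*} [TopologicalSpace A] [PreconnectedSpace A]
    (f : A → ℝ) (hf : Continuous f) (c : AddCircle p) (h : ∀ x, ((f x : ℝ) : AddCircle p) = c)
    (x y : A) : f x = f y := by
  have cov : IsCoveringMap ((↑) : ℝ → AddCircle p) := AddCircle.isCoveringMap_coe p
  exact cov.const_of_comp hf (fun a b => by rw [h, h]) x y

lemma continuous_coe {p : ℝ} : Continuous ((↑) : ℝ → AddCircle p) := AddCircle.continuous_mk' p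

section Lift

variable {L : ℝ} {Y : Type*} [TopologicalSpace Y] [ContractibleSpace Y]

/-- `Γ` is a rotational invariant curve (as in `CylStmt.lean`, for a general second factor) -/
def IsRIC (T : AddCircle L × Y → AddCircle L × Y) (Γ : Set (AddCircle L × Y)) : Prop :=
  ∃ c : C(AddCircle (1 : ℝ), AddCircle L × Y), Function.Injective c ∧ ¬ c.Nullhomotopic ∧
    Set.range c = Γ ∧ T '' Γ = Γ

/-- a tube of rotational invariant curves and its lift: `X` is the lift of the first coordinate,
`G` the lift of `T`, followed by the translation by `- K` periods -/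
structure IsTube (T : AddCircle L × Y → AddCircle L × Y) (D : AddCircle L × Y → ℝ) (K : ℤ)
    (φ : AddCircle (1 : ℝ) × ℝ → AddCircle L × Y) (X G : ℝ × ℝ → ℝ) : Prop where
  emb : IsOpenEmbedding φ
  contX : Continuous X
  contG : Continuous G
  perX : ∀ u t, X (u + 1, t) = X (u, t) + L
  coeX : ∀ u t, ((X (u, t) : ℝ) : AddCircle L) = (φ ((u : AddCircle (1 : ℝ)), t)).1
  semi : ∀ u t, φ (((G (u, t) : ℝ) : AddCircle (1 : ℝ)), t) = T (φ ((u : AddCircle (1 : ℝ)), t))
  XG : ∀ u t, X (G (u, t), t) = X (u, t) + D (φ ((u : AddCircle (1 : ℝ)), t)) - K * L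
  perG : ∀ u t, G (u + 1, t) = G (u, t) + 1
  mono : ∀ t, StrictMono fun u => G (u, t)

lemma exists_tube (hL : 0 < L) [T2Space Y] (T : AddCircle L × Y → AddCircle L × Y)
    (hTc : Continuous T)
    (hTi : Function.Injective T) (y : Y → ℝ) (hy : Continuous y) (hyi : Function.Injective y)
    (D : AddCircle L × Y → ℝ) (hD : Continuous D)
    (hTD : ∀ z, (T z).1 = z.1 + ((D z : ℝ) : AddCircle L))
    (φ : AddCircle (1 : ℝ) × ℝ → AddCircle L × Y) (hφ : IsOpenEmbedding φ)
    (hinv : ∀ t, IsRIC T (range fun u => φ (u, t))) (K : ℤ) :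
    ∃ φ' X G, IsTube T D K φ' X G ∧ ∀ t, (range fun u => φ' (u, t)) = range fun u => φ (u, t) := by
  -- not null-homotopic
  have hnull : ∀ t, ∀ c : C(AddCircle (1:ℝ), AddCircle L × Y), (∀ u, c u = φ (u, t)) →
      ¬ c.Nullhomotopic := by
    intro t c hc hn
    obtain ⟨c', hi, hn', hr, -⟩ := hinv t
    apply hn'
    -- c' = c ∘ g
    have hmem : ∀ u, ∃ v, φ (v, t) = c' u := by
      intro u
      have : c' u ∈ range c' := ⟨u, rfl⟩
      rw [hr] at this
      exact this
    choose g hg using hmem
    have hemb : IsEmbedding fun v : AddCircle (1:ℝ) => φ (v, t) :=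
      hφ.isEmbedding.comp (isEmbedding_prodMkLeft t)
    have hgc : Continuous g := by
      rw [hemb.continuous_iff]
      have : (fun v : AddCircle (1:ℝ) => φ (v, t)) ∘ g = c' := by
        funext u; exact hg u
      rw [this]
      exact c'.continuous
    have : c' = c.comp ⟨g, hgc⟩ := by
      ext1 u
      rw [ContinuousMap.comp_apply, hc]
      exact (hg u).symm
    rw [this]
    exact hn.comp_left _
  -- the lift X
  obtain ⟨X, hXc, hX⟩ := exists_real_lift (p := L) (A := ℝ × ℝ)
    (fun p => (φ ((p.1 : AddCircle (1:ℝ)), p.2)).1) (by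
      have h1 : Continuous ((↑) : ℝ → AddCircle (1:ℝ)) := continuous_coe
      have := hφ.continuous
      fun_prop)
  have hX' : ∀ u t, ((X (u, t) : ℝ) : AddCircle L) = (φ ((u : AddCircle (1 : ℝ)), t)).1 :=
    fun u t => hX (u, t)
  have hcoe1 : ∀ u : ℝ, ((u + 1 : ℝ) : AddCircle (1:ℝ)) = (u : AddCircle (1:ℝ)) := by
    intro u; exact AddCircle.coe_add_period 1 u
  set κ : ℝ := X (0 + 1, 0) - X (0, 0) with hκ
  have hper : ∀ u t, X (u + 1, t) = X (u, t) + κ := by
    intro u t
    have := const_of_coe_const (p := L) (fun p : ℝ × ℝ => X (p.1 + 1, p.2) - X (p.1, p.2))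
      (by fun_prop) 0 (by
        rintro ⟨a, b⟩
        rw [AddCircle.coe_sub, hX', hX', hcoe1, sub_self]) (u, t) (0, 0)
    simp only at this
    rw [hκ, ← this]; ring
  have hκ3 : ((κ : ℝ) : AddCircle L) = 0 := by
    rw [hκ, AddCircle.coe_sub, hX', hX', hcoe1, sub_self]
  -- κ ≠ 0
  have hc0 : Continuous fun u : AddCircle (1:ℝ) => φ (u, 0) := by
    have := hφ.continuous
    fun_prop
  have hκ0 : κ ≠ 0 := by
    obtain ⟨σ, κ', h1, h2, h3, h4⟩ := Pool.Agent.H738R2.lift_closed_curve
      (⟨fun u : AddCircle (1:ℝ) => φ (u, 0), hc0⟩ : C(AddCircle (1:ℝ), AddCircle L × Y))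
      (hnull 0 _ fun u => rfl)
    have h5 := const_of_coe_const (p := L) (fun u : ℝ => X (u, 0) - σ u) (by fun_prop) 0 (by
      intro u
      rw [AddCircle.coe_sub, hX', h4]
      exact sub_self _) (0 + 1) 0
    rw [h3] at h5
    have : κ = κ' := by rw [hκ]; linarith
    rw [this]; exact h2
  have hκL : κ = L ∨ κ = -L := by
    refine degree_one hL (fun u => X (u, 0)) (fun u => y (φ ((u : AddCircle (1:ℝ)), 0)).2)
      (by fun_prop) ?_ κ hκ0 (fun u => hper u 0) ?_ hκ3 ?_
    · have h1 : Continuous ((↑) : ℝ → AddCircle (1:ℝ)) := continuous_coe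
      have := hφ.continuous
      fun_prop
    · intro x; simp only [hcoe1]
    · intro x x' h1 h2
      rw [hX', hX'] at h1
      have h3 := hyi h2
      have h4 := hφ.injective (Prod.ext h1 h3)
      have h5 := congrArg Prod.fst h4
      simp only at h5
      rw [coe_eq_iff] at h5
      simpa using h5
  -- the lift of T in the coordinates of the tube, for a general tube
  have key : ∀ (φ : AddCircle (1 : ℝ) × ℝ → AddCircle L × Y) (X : ℝ × ℝ → ℝ),
      IsOpenEmbedding φ → (∀ t, T '' (range fun u => φ (u, t)) = range fun u => φ (u, t)) →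
      Continuous X → (∀ u t, ((X (u, t) : ℝ) : AddCircle L) = (φ ((u : AddCircle (1 : ℝ)), t)).1) →
      (∀ u t, X (u + 1, t) = X (u, t) + L) → ∃ G, IsTube T D K φ X G := by
    intro φ X hφ hinv hXc hX' hper
    obtain ⟨ψ, hψ⟩ : ∃ ψ : AddCircle (1:ℝ) × ℝ → AddCircle (1:ℝ),
        ∀ p, φ (ψ p, p.2) = T (φ p) := by
      have : ∀ p : AddCircle (1:ℝ) × ℝ, ∃ v, φ (v, p.2) = T (φ p) := by
        rintro ⟨u, t⟩
        have : T (φ (u, t)) ∈ T '' (range fun u => φ (u, t)) := ⟨_, ⟨u, rfl⟩, rfl⟩
        rw [hinv t] at this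
        exact this
      choose ψ hψ using this
      exact ⟨ψ, hψ⟩
    have hψc : Continuous ψ := by
      have : Continuous fun p : AddCircle (1:ℝ) × ℝ => (ψ p, p.2) := by
        rw [hφ.isEmbedding.continuous_iff]
        have h1 : φ ∘ (fun p : AddCircle (1:ℝ) × ℝ => (ψ p, p.2)) = T ∘ φ := by
          funext p; exact hψ p
        rw [h1]
        exact hTc.comp hφ.continuous
      exact continuous_fst.comp this
    obtain ⟨G₀, hG₀c, hG₀⟩ := exists_real_lift (p := (1:ℝ)) (A := ℝ × ℝ)
      (fun p => ψ ((p.1 : AddCircle (1:ℝ)), p.2)) (by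
        have h1 : Continuous ((↑) : ℝ → AddCircle (1:ℝ)) := continuous_coe
        fun_prop)
    have hcoe : Continuous ((↑) : ℝ → AddCircle (1:ℝ)) := continuous_coe
    have hφc := hφ.continuous
    -- comparison of the two lifts
    set E : ℝ × ℝ → ℝ := fun p => X (G₀ p, p.2) - X p - D (φ ((p.1 : AddCircle (1:ℝ)), p.2))
      with hE
    have hEc : Continuous E := by rw [hE]; fun_prop
    have hE0 : ∀ p, ((E p : ℝ) : AddCircle L) = 0 := by
      rintro ⟨u, t⟩
      simp only [hE, AddCircle.coe_sub]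
      rw [hX', hX', hG₀]
      have h1 := hψ ((u : AddCircle (1:ℝ)), t)
      simp only at h1
      simp only
      rw [h1, hTD]
      abel
    have hEconst : ∀ p, E p = E (0, 0) := fun p =>
      const_of_coe_const (p := L) E hEc 0 hE0 p (0, 0)
    obtain ⟨k, hk⟩ : ∃ k : ℤ, E (0, 0) = k * L := by
      have := hE0 (0, 0)
      rw [AddCircle.coe_eq_zero_iff] at this
      obtain ⟨k, hk⟩ := this
      exact ⟨k, by rw [← hk]; simp⟩
    set j : ℤ := -k - K with hj
    set G : ℝ × ℝ → ℝ := fun p => G₀ p + j with hG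
    have hGc : Continuous G := by rw [hG]; fun_prop
    have hGcoe : ∀ p, ((G p : ℝ) : AddCircle (1:ℝ)) = ((G₀ p : ℝ) : AddCircle (1:ℝ)) := by
      intro p
      rw [eq_comm, coe_eq_iff]
      exact ⟨j, by simp [hG]⟩
    have hsemi : ∀ u t, φ (((G (u, t) : ℝ) : AddCircle (1 : ℝ)), t)
        = T (φ ((u : AddCircle (1 : ℝ)), t)) := by
      intro u t
      rw [hGcoe, hG₀]
      exact hψ ((u : AddCircle (1:ℝ)), t)
    have hXint : ∀ (n : ℤ) u t, X (u + n, t) = X (u, t) + n * L := by
      intro n u t
      exact add_int_of_add_one (fun u => X (u, t)) L (fun x => hper x t) n u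
    have hXG : ∀ u t, X (G (u, t), t) = X (u, t) + D (φ ((u : AddCircle (1 : ℝ)), t)) - K * L := by
      intro u t
      have h1 := hEconst (u, t)
      rw [hk] at h1
      simp only [hE] at h1
      simp only [hG]
      rw [hXint]
      have h2 : (j : ℝ) = -k - K := by rw [hj]; push_cast; ring
      rw [h2]
      linarith
    have hcoe1 : ∀ u : ℝ, ((u + 1 : ℝ) : AddCircle (1:ℝ)) = (u : AddCircle (1:ℝ)) := by
      intro u; exact AddCircle.coe_add_period 1 u
    have hperG : ∀ u t, G (u + 1, t) = G (u, t) + 1 := by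
      intro u t
      have h1 : ((G (u, t) : ℝ) : AddCircle (1:ℝ)) = ((G (u + 1, t) : ℝ) : AddCircle (1:ℝ)) := by
        have e1 := hsemi u t
        have e2 := hsemi (u + 1) t
        rw [hcoe1, ← e1] at e2
        exact (congrArg Prod.fst (hφ.injective e2)).symm
      rw [coe_eq_iff] at h1
      obtain ⟨n, hn⟩ := h1
      have h2 := hXG (u + 1) t
      rw [hn, hcoe1, hper, mul_one, hXint, hXG] at h2
      have h3 : (n : ℝ) * L = 1 * L := by linarith
      have h4 := mul_right_cancel₀ hL.ne' h3
      rw [hn, h4]; ring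
    have hmono : ∀ t, StrictMono fun u => G (u, t) := by
      intro t
      have hinjG : Function.Injective fun u => G (u, t) := by
        intro u u' h
        simp only at h
        have e1 := hsemi u t
        have e2 := hsemi u' t
        rw [h, e2] at e1
        have e3 := hφ.injective (hTi e1)
        have e4 := congrArg Prod.fst e3
        simp only at e4
        rw [coe_eq_iff] at e4
        obtain ⟨n, hn⟩ := e4
        have e5 := add_int_of_add_one (fun u => G (u, t)) 1 (fun x => hperG x t) n u'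
        simp only [mul_one] at e5 hn
        rw [hn, e5] at h
        have : (n:ℝ) = 0 := by linarith
        rw [hn, this, add_zero]
      rcases (show Continuous fun u => G (u, t) by fun_prop).strictMono_of_inj hinjG with h | h
      · exact h
      · exfalso
        have h1 := h (show (0:ℝ) < 0 + 1 by norm_num)
        simp only at h1
        rw [hperG] at h1
        linarith
    exact ⟨G, hφ, hXc, hGc, hper, hX', hsemi, hXG, hperG, hmono⟩
  have hinv' : ∀ t, T '' (range fun u => φ (u, t)) = range fun u => φ (u, t) := by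
    intro t
    obtain ⟨-, -, -, -, h⟩ := hinv t
    exact h
  rcases hκL with h | h
  · obtain ⟨G, hG⟩ := key φ X hφ hinv' hXc hX' (fun u t => by rw [hper, h])
    exact ⟨φ, X, G, hG, fun t => rfl⟩
  · -- reverse the direction
    set φ' : AddCircle (1 : ℝ) × ℝ → AddCircle L × Y := fun p => φ (-p.1, p.2) with hφ'
    set X' : ℝ × ℝ → ℝ := fun p => X (-p.1, p.2) with hX''
    have hr : ∀ t, (range fun u => φ' (u, t)) = range fun u => φ (u, t) := by
      intro t
      ext z
      constructor
      · rintro ⟨u, rfl⟩; exact ⟨-u, rfl⟩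
      · rintro ⟨u, rfl⟩; exact ⟨-u, by simp [hφ']⟩
    have hφ'e : IsOpenEmbedding φ' := by
      have : φ' = φ ∘ ((Homeomorph.neg (AddCircle (1:ℝ))).prodCongr (Homeomorph.refl ℝ)) := by
        funext p; rfl
      rw [this]
      exact hφ.comp (Homeomorph.isOpenEmbedding _)
    obtain ⟨G, hG⟩ := key φ' X' hφ'e (fun t => by rw [hr]; exact hinv' t) (by rw [hX'']; fun_prop)
      (by
        intro u t
        simp only [hX'', hφ', hX']
        rw [AddCircle.coe_neg])
      (by
        intro u t
        simp only [hX'']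
        have := hper (-(u + 1)) t
        have e : -(u + 1) + 1 = -u := by ring
        rw [e, h] at this
        linarith)
    exact ⟨φ', X', G, hG, hr⟩

end Lift

end Pool.Agent.W714.Coin
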